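import Pool.Agent.Helper71.CQ.Change

/-!
# Double planes branched along singular quartics
-/

set_option autoImplicit false

namespace Pool.Agent.Helper71.CQ

open Pool.Agent.Helper29.CQ Pool.Agent.Helper65.CC Pool.Agent.Helper87.CC
  Pool.Agent.Helper65.CC.KFn

open Polynomial

variable {K : Type} [Field K] {G : ∀ (R : Type) [CommRing R] [Algebra K R], Prop}

/-- a double point at the origin -/
theorem V.node [IsAlgClosed K] (h2 : (2 : K) ≠ 0) (hG : GOps K G) (c : ℕ → ℕ → K)
    (h00 : c 0 0 = 0) (h10 : c 1 0 = 0) (h01 : c 0 1 = 0)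
    (hinf : (BC (bin4 (lead c) (X : K[X]) 1)).Mem G)
    (h4 : (C (c 4 0) + C (c 3 1) * X + C (c 2 2) * X ^ 2 + C (c 1 3) * X ^ 3 +
      C (c 0 4) * X ^ 4 : K[X]) ≠ 0) : (V c).Mem G := by
  let P4 : K[X] := C (c 4 0) + C (c 3 1) * X + C (c 2 2) * X ^ 2 + C (c 1 3) * X ^ 3 +
      C (c 0 4) * X ^ 4
  let P3 : K[X] := C (c 3 0) + C (c 2 1) * X + C (c 1 2) * X ^ 2 + C (c 0 3) * X ^ 3
  let P2 : K[X] := C (c 2 0) + C (c 1 1) * X + C (c 0 2) * X ^ 2
  let q : Fin 6 → K[X] := ![P4, 0, -1, P3, 0, P2]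
  have key : ∀ (R : Type) [CommRing R] [Algebra K R] (x t : R),
      F4 c x (t * x) 1 = x ^ 2 * (aeval t P4 * x ^ 2 + aeval t P3 * x + aeval t P2) := by
    intro R _ _ x t
    simp only [P4, P3, P2, map_add, map_mul, map_pow, aeval_C, aeval_X, F4, h00, h10, h01,
      map_zero]
    ring
  have hcon : ∀ (R : Type) [CommRing R] [Algebra K R] (t x u : R),
      con (aeval t (q 0)) (aeval t (q 1)) (aeval t (q 2)) (aeval t (q 3)) (aeval t (q 4))
        (aeval t (q 5)) x u = - (u ^ 2 - (aeval t P4 * x ^ 2 + aeval t P3 * x + aeval t P2)) := by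
    intro R _ _ t x u
    change con (aeval t P4) (aeval t (0 : K[X])) (aeval t (-1 : K[X])) (aeval t P3)
      (aeval t (0 : K[X])) (aeval t P2) x u = _
    simp only [con, map_zero, map_neg, map_one]
    ring
  have hD0 : (0 : K[X]) ^ 2 - 4 * P4 * (-1) = C (4 : K) * P4 := by
    rw [show (C (4 : K) : K[X]) = 4 from map_ofNat C 4]; ring
  have h40 : (4 : K) ≠ 0 := by
    have h5 : (4 : K) = 2 * 2 := by norm_num
    rw [h5]
    exact mul_ne_zero h2 h2
  have hW : (CBf q).Mem G := by
    refine CBf.mem hG h2 q ?_ ?_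
    · change (0 : K[X]) ^ 2 - 4 * P4 * (-1) ≠ 0
      rw [hD0]
      exact mul_ne_zero (by rwa [Ne, C_eq_zero]) h4
    · change (BC ((0 : K[X]) ^ 2 - 4 * P4 * (-1))).Mem G
      rw [hD0]
      refine BC.smul (G := G) (h := P4) 4 h40 ?_
      have h5 := BC.moebius hG (lead c) 0 1 1 0 (by norm_num) hinf
      have h6 : bin4 (lead c) (C 0 * X + C 1) (C 1 * X + C 0 : K[X]) = P4 := by
        rw [bin4_lead]
        simp [F4, P4]
      rw [h6] at h5
      exact h5
  let xW : Coord (CBf q) := ⟨fun x => x.1.2.1, fun _ _ => rfl⟩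
  have hW1 : ((CBf q).opn xW).Mem G := by
    refine mem_opn hG.toKOps _ hW ?_
    have h5 : (BC P2).Mem G := by
      apply BC.deg_two hG
      simp only [P2]
      compute_degree
    refine Mem.of_iso (F' := BC P2) ?_ h5
    exact
      { hom := fun {R} _ _ x => ⟨(x.1.1.1, x.1.1.2.2), by
          have h6 := (hcon R x.1.1.1 x.1.1.2.1 x.1.1.2.2).symm.trans x.1.2
          have h7 : x.1.1.2.1 = 0 := x.2
          change x.1.1.2.2 ^ 2 - aeval x.1.1.1 P2 = 0
          rw [h7] at h6
          linear_combination - h6⟩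
        inv := fun {R} _ _ y => ⟨⟨(y.1.1, 0, y.1.2), by
          refine (hcon R y.1.1 0 y.1.2).trans ?_
          have h6 : y.1.2 ^ 2 - aeval y.1.1 P2 = 0 := y.2
          linear_combination - h6⟩, rfl⟩
        inv_hom := fun {R} _ _ x => by
          have h7 : x.1.1.2.1 = 0 := x.2
          exact Subtype.ext (Subtype.ext (Prod.ext rfl (Prod.ext h7.symm rfl)))
        hom_inv := fun _ => rfl
        nat := fun _ _ => rfl }
  let xV : Coord (V c) := ⟨fun x => x.1.1, fun _ _ => rfl⟩
  refine Mem.glue hG.toKOps xV ?_ ?_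
  · refine Mem.of_iso (F' := (CBf q).opn xW) ?_ hW1
    exact
      { hom := fun {R} _ _ x => ⟨⟨(x.1.1.2.1 * Ring.inverse x.1.1.1, x.1.1.1,
            x.1.1.2.2 * Ring.inverse x.1.1.1), by
            have h5 := mul_inv' (a := x.1.1.1) x.2
            have h6 : x.1.1.2.2 ^ 2 - F4 c x.1.1.1 x.1.1.2.1 1 = 0 := x.1.2
            have h7 : x.1.1.2.1 = (x.1.1.2.1 * Ring.inverse x.1.1.1) * x.1.1.1 := by
              linear_combination (- x.1.1.2.1) * h5
            rw [h7, key] at h6
            refine (hcon R _ _ _).trans ?_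
            set i := Ring.inverse x.1.1.1
            set t := x.1.1.2.1 * i
            linear_combination (- i ^ 2) * h6 - (aeval t P4 * x.1.1.1 ^ 2 +
              aeval t P3 * x.1.1.1 + aeval t P2) * (x.1.1.1 * i + 1) * h5⟩, x.2⟩
        inv := fun {R} _ _ y => ⟨⟨(y.1.1.2.1, y.1.1.1 * y.1.1.2.1, y.1.1.2.2 * y.1.1.2.1), by
            have h6 := (hcon R y.1.1.1 y.1.1.2.1 y.1.1.2.2).symm.trans y.1.2
            change (y.1.1.2.2 * y.1.1.2.1) ^ 2 - F4 c y.1.1.2.1 (y.1.1.1 * y.1.1.2.1) 1 = 0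
            rw [key]
            linear_combination (- y.1.1.2.1 ^ 2) * h6⟩, y.2⟩
        inv_hom := fun {R} _ _ x => by
          have h5 := mul_inv' (a := x.1.1.1) x.2
          refine Subtype.ext (Subtype.ext (Prod.ext rfl (Prod.ext ?_ ?_)))
          · change x.1.1.2.1 * Ring.inverse x.1.1.1 * x.1.1.1 = x.1.1.2.1
            linear_combination x.1.1.2.1 * h5
          · change x.1.1.2.2 * Ring.inverse x.1.1.1 * x.1.1.1 = x.1.1.2.2
            linear_combination x.1.1.2.2 * h5
        hom_inv := fun {R} _ _ y => by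
          have h5 := mul_inv' (a := y.1.1.2.1) y.2
          refine Subtype.ext (Subtype.ext (Prod.ext ?_ (Prod.ext rfl ?_)))
          · change y.1.1.1 * y.1.1.2.1 * Ring.inverse y.1.1.2.1 = y.1.1.1
            linear_combination y.1.1.1 * h5
          · change y.1.1.2.2 * y.1.1.2.1 * Ring.inverse y.1.1.2.1 = y.1.1.2.2
            linear_combination y.1.1.2.2 * h5
        nat := fun {R S} _ _ _ _ f x => by
          have h5 := inv_nat f (a := x.1.1.1) x.2
          refine Subtype.ext (Subtype.ext (Prod.ext ?_ (Prod.ext rfl ?_)))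
          · change f (x.1.1.2.1 * Ring.inverse x.1.1.1) = f x.1.1.2.1 * Ring.inverse (f x.1.1.1)
            rw [map_mul, h5]
          · change f (x.1.1.2.2 * Ring.inverse x.1.1.1) = f x.1.1.2.2 * Ring.inverse (f x.1.1.1)
            rw [map_mul, h5] }
  · have h5 : (BC (X ^ 2 * (C (c 0 2) + C (c 0 3) * X + C (c 0 4) * X ^ 2) : K[X])).Mem G := by
      apply BC.sq_mul hG _ X_ne_zero
      apply BC.deg_two hG
      compute_degree
    refine Mem.of_iso ?_ h5
    have key2 : ∀ (R : Type) [CommRing R] [Algebra K R] (y : R),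
        F4 c 0 y 1 = aeval y (X ^ 2 * (C (c 0 2) + C (c 0 3) * X + C (c 0 4) * X ^ 2) : K[X]) := by
      intro R _ _ y
      simp only [map_add, map_mul, map_pow, aeval_C, aeval_X, F4, h00, h01, map_zero]
      ring
    exact
      { hom := fun {R} _ _ x => ⟨(x.1.1.2.1, x.1.1.2.2), by
          have h6 : x.1.1.2.2 ^ 2 - F4 c x.1.1.1 x.1.1.2.1 1 = 0 := x.1.2
          have h7 : x.1.1.1 = 0 := x.2
          rw [h7, key2] at h6
          exact h6⟩
        inv := fun {R} _ _ y => ⟨⟨(0, y.1.1, y.1.2), by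
          change y.1.2 ^ 2 - F4 c 0 y.1.1 1 = 0
          rw [key2]
          exact y.2⟩, rfl⟩
        inv_hom := fun {R} _ _ x => by
          have h7 : x.1.1.1 = 0 := x.2
          exact Subtype.ext (Subtype.ext (Prod.ext h7.symm rfl))
        hom_inv := fun _ => rfl
        nat := fun _ _ => rfl }

/-- polynomial functions with a double zero at the origin -/
theorem coeffs_of_sq [Infinite K] (p r : K[X]) (h : ∀ t : K, p.eval t = t ^ 2 * r.eval t) :
    p.coeff 0 = 0 ∧ p.coeff 1 = 0 := by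
  have h1 : p = X ^ 2 * r := by
    apply Polynomial.funext
    intro t
    rw [h, eval_mul, eval_pow, eval_X]
  constructor
  · rw [h1, coeff_X_pow_mul']
    simp
  · rw [h1, coeff_X_pow_mul']
    simp

theorem cyl_change (c c' : ℕ → ℕ → K) (a b v a' b' w : K) (hdet : a * b' - b * a' ≠ 0)
    (h : ∀ (R : Type) [CommRing R] [Algebra K R] (x y z : R),
      F4 c (algebraMap K R a * x + algebraMap K R b * y + algebraMap K R v * z)
        (algebraMap K R a' * x + algebraMap K R b' * y + algebraMap K R w * z) z =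
      F4 c' x y z) (hc : Cyl' c') : Cyl' c := by
  obtain ⟨q0, q1, hq, hinv⟩ := hc
  refine ⟨a * q0 + b * q1, a' * q0 + b' * q1, ?_, ?_⟩
  · by_contra hcon
    push Not at hcon
    obtain ⟨k0, k1⟩ := hcon
    have e0 : (a * b' - b * a') * q0 = 0 := by linear_combination b' * k0 - b * k1
    have e1 : (a * b' - b * a') * q1 = 0 := by linear_combination a * k1 - a' * k0
    have e0' := (mul_eq_zero.1 e0).resolve_left hdet
    have e1' := (mul_eq_zero.1 e1).resolve_left hdet
    rcases hq with hq | hq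
    · exact hq e0'
    · exact hq e1'
  · intro R _ _ x y t
    -- the point in the new coordinates
    set d := algebraMap K R (a * b' - b * a')⁻¹ with hd
    have e : (algebraMap K R a * algebraMap K R b' - algebraMap K R b * algebraMap K R a') * d
        = 1 := by
      rw [hd, ← map_mul, ← map_mul, ← map_sub, ← map_mul, mul_inv_cancel₀ hdet, map_one]
    let X' : R := d * (algebraMap K R b' * (x - algebraMap K R v) -
      algebraMap K R b * (y - algebraMap K R w))
    let Y' : R := d * (algebraMap K R a * (y - algebraMap K R w) -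
      algebraMap K R a' * (x - algebraMap K R v))
    have hX : algebraMap K R a * X' + algebraMap K R b * Y' + algebraMap K R v * 1 = x := by
      simp only [X', Y']
      linear_combination (x - algebraMap K R v) * e
    have hY : algebraMap K R a' * X' + algebraMap K R b' * Y' + algebraMap K R w * 1 = y := by
      simp only [X', Y']
      linear_combination (y - algebraMap K R w) * e
    have h1 := hinv R X' Y' t
    rw [← h, ← h] at h1
    rw [hX, hY] at h1
    rw [← h1]
    congr 1
    · rw [← hX]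
      simp only [map_add, map_mul]
      ring
    · rw [← hY]
      simp only [map_add, map_mul]
      ring

/-- a singular point at infinity -/
theorem geo_sing_inf [IsAlgClosed K] (h2 : (2 : K) ≠ 0) (hG : GOps K G) (c : ℕ → ℕ → K)
    (hcyl : ¬ Cyl' c) (p0 p1 : K) (hp : p0 ≠ 0 ∨ p1 ≠ 0) (hF : F4 c p0 p1 0 = 0)
    (h13 : ∀ v0 v1 : K, ∃ r : K[X], ∀ t : K,
      F4 c (p0 + t * v0) (p1 + t * v1) 0 = t ^ 2 * r.eval t)
    (h03 : ∃ r : K[X], ∀ t : K, F4 c p0 p1 t = t ^ 2 * r.eval t) : (V c).Mem G := by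
  have hinf : Infinite K := IsAlgClosed.instInfinite
  obtain ⟨e0, e1, hdet⟩ : ∃ e0 e1 : K, e0 * p1 - p0 * e1 ≠ 0 := by
    rcases hp with hp | hp
    · exact ⟨0, 1, by simpa using hp⟩
    · exact ⟨1, 0, by simpa using hp⟩
  obtain ⟨c', hc'⟩ := exists_change c e0 p0 0 e1 p1 0
  refine Mem.of_iso (V.iso c c' e0 p0 0 e1 p1 0 hdet hc') ?_
  refine V.conic h2 hG c' ?_ ?_ ?_ fun h => hcyl (cyl_change c c' e0 p0 0 e1 p1 0 hdet hc' h)
  · have h1 := hc' K 0 1 0
    simp only [Algebra.algebraMap_self, RingHom.id_apply, mul_zero, mul_one, zero_add,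
      add_zero] at h1
    rw [hF] at h1
    rw [h1]
    simp [F4]
  · obtain ⟨r, hr⟩ := h13 e0 e1
    have h1 : ∀ t : K, (C (c' 0 4) + C (c' 1 3) * X + C (c' 2 2) * X ^ 2 + C (c' 3 1) * X ^ 3 +
        C (c' 4 0) * X ^ 4 : K[X]).eval t = t ^ 2 * r.eval t := by
      intro t
      rw [← hr]
      have h3 := hc' K t 1 0
      simp only [Algebra.algebraMap_self, RingHom.id_apply, mul_zero, mul_one, zero_mul,
        add_zero] at h3
      have h4 : F4 c (p0 + t * e0) (p1 + t * e1) 0 = F4 c' t 1 0 := by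
        rw [← h3]
        congr 1 <;> ring
      rw [h4]
      simp [F4]
      ring
    have h3 := (coeffs_of_sq _ r h1).2
    simpa using h3
  · obtain ⟨r, hr⟩ := h03
    have h1 : ∀ t : K, (C (c' 0 4) + C (c' 0 3) * X + C (c' 0 2) * X ^ 2 + C (c' 0 1) * X ^ 3 +
        C (c' 0 0) * X ^ 4 : K[X]).eval t = t ^ 2 * r.eval t := by
      intro t
      rw [← hr]
      have h3 := hc' K 0 1 t
      simp only [Algebra.algebraMap_self, RingHom.id_apply, mul_zero, mul_one, zero_mul,
        add_zero, zero_add] at h3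
      rw [h3]
      simp [F4]
      ring
    have h3 := (coeffs_of_sq _ r h1).2
    simpa using h3

/-- **(S)** double planes branched along singular quartics -/
theorem geo_sing [IsAlgClosed K] (h2 : (2 : K) ≠ 0) (hG : GOps K G) (c : ℕ → ℕ → K)
    (hinf : (BC (bin4 (lead c) (X : K[X]) 1)).Mem G) (hcyl : ¬ Cyl' c) (p : Fin 3 → K)
    (hs : Sing c p) : (V c).Mem G := by
  have hinfK : Infinite K := IsAlgClosed.instInfinite
  by_cases hp2 : p 2 = 0
  · -- at infinity
    have hp01 : p 0 ≠ 0 ∨ p 1 ≠ 0 := by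
      by_contra hcon
      push Not at hcon
      apply hs.1
      funext i
      fin_cases i
      · exact hcon.1
      · exact hcon.2
      · exact hp2
    refine geo_sing_inf h2 hG c hcyl (p 0) (p 1) hp01 ?_ ?_ ?_
    · obtain ⟨r, hr⟩ := hs.2 0
      have h1 := hr 0
      rw [hp2] at h1
      simpa using h1
    · intro v0 v1
      obtain ⟨r, hr⟩ := hs.2 ![v0, v1, 0]
      refine ⟨r, fun t => ?_⟩
      have h1 := hr t
      rw [hp2] at h1
      simpa using h1
    · obtain ⟨r, hr⟩ := hs.2 ![0, 0, 1]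
      refine ⟨r, fun t => ?_⟩
      have h1 := hr t
      rw [hp2] at h1
      simpa using h1
  · -- a finite point
    by_cases h4 : (C (c 4 0) + C (c 3 1) * X + C (c 2 2) * X ^ 2 + C (c 1 3) * X ^ 3 +
      C (c 0 4) * X ^ 4 : K[X]) = 0
    · -- no terms of degree four: every zero of the cubic form is singular
      have k : ∀ n, coeff (C (c 4 0) + C (c 3 1) * X + C (c 2 2) * X ^ 2 + C (c 1 3) * X ^ 3 +
        C (c 0 4) * X ^ 4 : K[X]) n = 0 := fun n => by rw [h4, coeff_zero]
      have c40 : c 4 0 = 0 := by simpa using k 0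
      have c31 : c 3 1 = 0 := by simpa using k 1
      have c22 : c 2 2 = 0 := by simpa using k 2
      have c13 : c 1 3 = 0 := by simpa using k 3
      have c04 : c 0 4 = 0 := by simpa using k 4
      obtain ⟨p0, p1, hp, h3⟩ : ∃ p0 p1 : K, (p0 ≠ 0 ∨ p1 ≠ 0) ∧
          c 3 0 * p0 ^ 3 + c 2 1 * p0 ^ 2 * p1 + c 1 2 * p0 * p1 ^ 2 + c 0 3 * p1 ^ 3 = 0 := by
        by_cases h03 : c 0 3 = 0
        · exact ⟨0, 1, Or.inr one_ne_zero, by rw [h03]; ring⟩
        · obtain ⟨y, hy⟩ := IsAlgClosed.exists_root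
            (C (c 0 3) * X ^ 3 + C (c 1 2) * X ^ 2 + C (c 2 1) * X + C (c 3 0) : K[X])
            (by rw [degree_cubic h03]; exact three_ne_zero)
          refine ⟨1, y, Or.inl one_ne_zero, ?_⟩
          have h1 : Polynomial.eval y (C (c 0 3) * X ^ 3 + C (c 1 2) * X ^ 2 + C (c 2 1) * X +
            C (c 3 0) : K[X]) = 0 := hy
          simp at h1
          linear_combination h1
      refine geo_sing_inf h2 hG c hcyl p0 p1 hp ?_ ?_ ?_
      · simp [F4, c40, c31, c22, c13, c04]
      · intro v0 v1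
        refine ⟨0, fun t => ?_⟩
        simp [F4, c40, c31, c22, c13, c04]
      · refine ⟨C (c 2 0 * p0 ^ 2 + c 1 1 * p0 * p1 + c 0 2 * p1 ^ 2) +
          C (c 1 0 * p0 + c 0 1 * p1) * X + C (c 0 0) * X ^ 2, fun t => ?_⟩
        simp only [F4, c40, c31, c22, c13, c04, Algebra.algebraMap_self, RingHom.id_apply,
          eval_add, eval_mul, eval_C, eval_pow, eval_X]
        linear_combination t * h3
    · -- translation
      let v : K := p 0 / p 2
      let w : K := p 1 / p 2
      have hdet : (1 : K) * 1 - 0 * 0 ≠ 0 := by norm_num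
      obtain ⟨c', hc'⟩ := exists_change c 1 0 v 0 1 w
      refine Mem.of_iso (V.iso c c' 1 0 v 0 1 w hdet hc') ?_
      have hinf' := lead_change hG c c' 1 0 v 0 1 w hdet hc' hinf
      have hscale : ∀ x y z s : K, F4 c (s * x) (s * y) (s * z) = s ^ 4 * F4 c x y z := by
        intro x y z s
        simp only [F4, Algebra.algebraMap_self, RingHom.id_apply]
        ring
      have hdir : ∀ v0 v1 : K, ∃ r : K[X], ∀ t : K, F4 c' (t * v0) (t * v1) 1 =
          t ^ 2 * r.eval t := by
        intro v0 v1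
        obtain ⟨r, hr⟩ := hs.2 ![v0, v1, 0]
        refine ⟨C ((p 2)⁻¹ ^ 2) * r.comp (C (p 2) * X), fun t => ?_⟩
        have h1 := hc' K (t * v0) (t * v1) 1
        simp only [Algebra.algebraMap_self, RingHom.id_apply, mul_one, one_mul, zero_mul,
          add_zero, zero_add] at h1
        rw [← h1]
        have h3 := hr (p 2 * t)
        have h5 : F4 c (p 0 + p 2 * t * ![v0, v1, 0] 0) (p 1 + p 2 * t * ![v0, v1, 0] 1)
            (p 2 + p 2 * t * ![v0, v1, 0] 2) = (p 2) ^ 4 * F4 c (t * v0 + v) (t * v1 + w) 1 := by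
          rw [← hscale]
          congr 1
          · change p 0 + p 2 * t * v0 = p 2 * (t * v0 + p 0 / p 2)
            field_simp
            ring
          · change p 1 + p 2 * t * v1 = p 2 * (t * v1 + p 1 / p 2)
            field_simp
            ring
          · change p 2 + p 2 * t * 0 = p 2 * 1
            ring
        rw [h5] at h3
        simp only [eval_mul, eval_C, eval_comp, eval_X]
        have h6 : (p 2) ^ 4 * F4 c (t * v0 + v) (t * v1 + w) 1 =
            (p 2) ^ 4 * (t ^ 2 * ((p 2)⁻¹ ^ 2 * r.eval (p 2 * t))) := by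
          rw [h3]
          field_simp
        exact mul_left_cancel₀ (pow_ne_zero 4 hp2) h6
      obtain ⟨r, hr⟩ := hdir 1 0
      have h1 : ∀ t : K, (C (c' 0 0) + C (c' 1 0) * X + C (c' 2 0) * X ^ 2 + C (c' 3 0) * X ^ 3 +
          C (c' 4 0) * X ^ 4 : K[X]).eval t = t ^ 2 * r.eval t := by
        intro t
        rw [← hr]
        simp [F4]
      obtain ⟨k0, k1⟩ := coeffs_of_sq _ r h1
      obtain ⟨r', hr'⟩ := hdir 0 1
      have h1' : ∀ t : K, (C (c' 0 0) + C (c' 0 1) * X + C (c' 0 2) * X ^ 2 +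
          C (c' 0 3) * X ^ 3 + C (c' 0 4) * X ^ 4 : K[X]).eval t = t ^ 2 * r'.eval t := by
        intro t
        rw [← hr']
        simp [F4]
      obtain ⟨k0', k1'⟩ := coeffs_of_sq _ r' h1'
      refine V.node h2 hG c' ?_ ?_ ?_ hinf' ?_
      · simpa using k0
      · simpa using k1
      · simpa using k1'
      · intro h5
        apply h4
        have h6 : ∀ (d : ℕ → ℕ → K), (C (d 4 0) + C (d 3 1) * X + C (d 2 2) * X ^ 2 +
            C (d 1 3) * X ^ 3 + C (d 0 4) * X ^ 4 : K[X]) = F4 d 1 X 0 := by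
          intro d
          simp [F4]
        rw [h6] at h5 ⊢
        have h7 := hc' K[X] 1 X 0
        simp only [map_one, map_zero, one_mul, zero_mul, mul_zero, add_zero, zero_add] at h7
        rw [h7]
        exact h5

end Pool.Agent.Helper71.CQ
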