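import Pool.Agent.Helper71.CQ.Bitangent
import Pool.Agent.Helper29.CQ.Forms

/-!
# Quartic forms: singular or of the shape Q² - l l' Q'
-/

set_option autoImplicit false

namespace Pool.Agent.Helper71.CQ

open MvPolynomial Pool.Agent.Helper29.CQ

section Hom

variable {K : Type} [Field K]

/-- the exponent with the given coordinates -/
noncomputable def T (a b c : ℕ) : Fin 3 →₀ ℕ := Finsupp.equivFunOnFinite.symm ![a, b, c]

theorem T_zero (a b c : ℕ) : T a b c 0 = a := rfl
theorem T_one (a b c : ℕ) : T a b c 1 = b := rfl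
theorem T_two (a b c : ℕ) : T a b c 2 = c := rfl

/-- homogeneous polynomials in three variables as explicit sums -/
theorem hom_sum {n : ℕ} {G : MvPolynomial (Fin 3) K} (hG : G.IsHomogeneous n) {R : Type}
    [CommRing R] [Algebra K R] (x : Fin 3 → R) :
    aeval x G = ∑ i ∈ Finset.range (n + 1), ∑ j ∈ Finset.range (n + 1 - i),
      algebraMap K R (coeff (T i j (n - i - j)) G) * (x 0 ^ i * x 1 ^ j * x 2 ^ (n - i - j)) := by
  classical
  let F : (Fin 3 →₀ ℕ) → R := fun d => algebraMap K R (coeff d G) * ∏ i, x i ^ d i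
  let S : Finset (Σ _ : ℕ, ℕ) := (Finset.range (n + 1)).sigma fun i => Finset.range (n + 1 - i)
  let τ : (Σ _ : ℕ, ℕ) → (Fin 3 →₀ ℕ) := fun s => T s.1 s.2 (n - s.1 - s.2)
  have h1 : aeval x G = ∑ d ∈ G.support, F d := by
    rw [aeval_def, eval₂_eq']
  have hsum : ∀ d ∈ G.support, d 0 + d 1 + d 2 = n := by
    intro d hd
    have h2 := hG (mem_support_iff.1 hd)
    have h3 := DFunLike.congr_fun (Finsupp.degree_eq_weight_one (R := ℕ) (σ := Fin 3)) d
    have h4 : Finsupp.degree d = d 0 + d 1 + d 2 := by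
      rw [Finsupp.degree_eq_sum, Fin.sum_univ_three]
    exact (h4.symm.trans h3).trans h2
  have h2 : ∑ d ∈ G.support, F d = ∑ d ∈ S.image τ, F d := by
    apply Finset.sum_subset
    · intro d hd
      have h3 := hsum d hd
      rw [Finset.mem_image]
      refine ⟨⟨d 0, d 1⟩, ?_, ?_⟩
      · simp only [S, Finset.mem_sigma, Finset.mem_range]
        omega
      · ext k
        fin_cases k
        · rfl
        · rfl
        · change n - d 0 - d 1 = d 2
          omega
    · intro d _ hd
      rw [notMem_support_iff] at hd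
      simp only [F, hd, map_zero, zero_mul]
  have h3 : ∑ d ∈ S.image τ, F d = ∑ s ∈ S, F (τ s) := by
    apply Finset.sum_image
    rintro ⟨a, b⟩ _ ⟨a', b'⟩ _ h
    have h4 : a = a' := DFunLike.congr_fun h 0
    have h5 : b = b' := DFunLike.congr_fun h 1
    rw [h4, h5]
  rw [h1, h2, h3, Finset.sum_sigma]
  refine Finset.sum_congr rfl fun i _ => Finset.sum_congr rfl fun j _ => ?_
  simp only [F, τ, Fin.prod_univ_three, T_zero, T_one, T_two]

theorem exists_qf {H : MvPolynomial (Fin 3) K} (hH : H.IsHomogeneous 2) :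
    ∃ q : Fin 6 → K, ∀ (R : Type) [CommRing R] [Algebra K R] (x : Fin 3 → R),
      aeval x H = qf q (x 0) (x 1) (x 2) := by
  refine ⟨![coeff (T 2 0 0) H, coeff (T 1 1 0) H, coeff (T 0 2 0) H, coeff (T 1 0 1) H,
    coeff (T 0 1 1) H, coeff (T 0 0 2) H], ?_⟩
  intro R _ _ x
  rw [hom_sum hH]
  simp [Finset.sum_range_succ, qf]
  ring

/-- the linear form X_m - α X_i - β X_j -/
noncomputable def lin (i j m : Fin 3) (α β : K) : MvPolynomial (Fin 3) K :=
  X m - C α * X i - C β * X j

/-- its coefficients -/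
def lc (i j m : Fin 3) (α β : K) : Fin 3 → K := fun k =>
  (if k = m then 1 else 0) - α * (if k = i then 1 else 0) - β * (if k = j then 1 else 0)

theorem lin_hom (i j m : Fin 3) (α β : K) : (lin i j m α β).IsHomogeneous 1 := by
  rw [lin]
  refine ((isHomogeneous_X K m).sub ?_).sub ?_
  · exact (isHomogeneous_X K i).C_mul α
  · exact (isHomogeneous_X K j).C_mul β

theorem aeval_lin (i j m : Fin 3) (α β : K) {R : Type} [CommRing R] [Algebra K R]
    (x : Fin 3 → R) : aeval x (lin i j m α β) = x m - algebraMap K R α * x i -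
      algebraMap K R β * x j := by
  simp [lin]

theorem lf_lc (i j m : Fin 3) (α β : K) {R : Type} [CommRing R] [Algebra K R]
    (x : Fin 3 → R) : lf (lc i j m α β) (x 0) (x 1) (x 2) = x m - algebraMap K R α * x i -
      algebraMap K R β * x j := by
  have h1 : lf (lc i j m α β) (x 0) (x 1) (x 2) = ∑ k, algebraMap K R (lc i j m α β k) * x k := by
    rw [Fin.sum_univ_three, lf]
  rw [h1]
  simp only [lc, map_sub, map_mul, sub_mul, Finset.sum_sub_distrib]
  congr 1
  · congr 1
    · rw [Finset.sum_eq_single m]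
      · simp
      · intro b _ hb; simp [hb]
      · simp
    · rw [Finset.sum_eq_single i]
      · simp
      · intro b _ hb; simp [hb]
      · simp
  · rw [Finset.sum_eq_single j]
    · simp
    · intro b _ hb; simp [hb]
    · simp

/-- a form vanishing on a plane is divisible by the linear form -/
theorem div_lin [Infinite K] {i j m : Fin 3} (hm : m ≠ i ∧ m ≠ j) (α β : K) {n : ℕ}
    {P : MvPolynomial (Fin 3) K} (hP : P.IsHomogeneous (n + 1))
    (h : ∀ x : Fin 3 → K, x m = α * x i + β * x j → eval x P = 0) :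
    ∃ H : MvPolynomial (Fin 3) K, H.IsHomogeneous n ∧ P = lin i j m α β * H := by
  classical
  let g : Fin 3 → MvPolynomial (Fin 3) K := fun k => if k = m then C α * X i + C β * X j else X k
  have h1 : aeval g P = 0 := by
    apply MvPolynomial.funext
    intro x
    rw [map_zero]
    have h2 : eval x (aeval g P) = eval (fun k => eval x (g k)) P := by
      rw [← MvPolynomial.coe_aeval_eq_eval, ← MvPolynomial.coe_aeval_eq_eval]
      change (aeval x) (aeval g P) = aeval (fun k => aeval x (g k)) P
      rw [← AlgHom.comp_apply, comp_aeval]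
    rw [h2]
    apply h
    simp [g, hm.1.symm, hm.2.symm]
  let I : Ideal (MvPolynomial (Fin 3) K) := Ideal.span {lin i j m α β}
  have h2 : (Ideal.Quotient.mkₐ K I).comp (aeval g) = Ideal.Quotient.mkₐ K I := by
    apply MvPolynomial.algHom_ext
    intro k
    rw [AlgHom.comp_apply, aeval_X]
    by_cases hk : k = m
    · simp only [g, hk, if_true]
      symm
      change Ideal.Quotient.mk I _ = Ideal.Quotient.mk I _
      rw [Ideal.Quotient.eq]
      have h3 : X m - (C α * X i + C β * X j) = lin i j m α β := by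
        rw [lin]; ring
      rw [h3]
      exact Ideal.mem_span_singleton_self _
    · simp only [g, hk, if_false]
  have h3 : P ∈ I := by
    rw [← Ideal.Quotient.eq_zero_iff_mem]
    have h4 := AlgHom.congr_fun h2 P
    rw [AlgHom.comp_apply, h1, map_zero] at h4
    exact h4.symm
  obtain ⟨H0, h4⟩ := Ideal.mem_span_singleton'.1 h3
  refine ⟨homogeneousComponent n H0, homogeneousComponent_isHomogeneous n H0, ?_⟩
  have h5 : homogeneousComponent (n + 1) P = P := by
    rw [homogeneousComponent_of_mem hP, if_pos rfl]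
  have h6 : ∀ k, homogeneousComponent (n + 1) (homogeneousComponent k H0 * lin i j m α β) =
      if n = k then homogeneousComponent k H0 * lin i j m α β else 0 := by
    intro k
    have h7 : (homogeneousComponent k H0 * lin i j m α β).IsHomogeneous (k + 1) :=
      (homogeneousComponent_isHomogeneous k H0).mul (lin_hom i j m α β)
    rw [homogeneousComponent_of_mem h7]
    by_cases hk : n = k
    · rw [if_pos hk, if_pos (by rw [hk])]
    · rw [if_neg hk, if_neg (by omega)]
  rw [← h5, ← h4]
  conv_lhs => rw [← sum_homogeneousComponent H0, Finset.sum_mul, map_sum]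
  rw [Finset.sum_congr rfl fun k _ => h6 k]
  rw [Finset.sum_ite_eq]
  split_ifs with h8
  · ring
  · have h9 : homogeneousComponent n H0 = 0 := by
      apply homogeneousComponent_eq_zero
      simp only [Finset.mem_range, not_lt] at h8
      omega
    rw [h9, mul_zero]

end Hom

section Main

variable {K : Type} [Field K]

/-- the quartic form as a polynomial -/
noncomputable def G4 (c : ℕ → ℕ → K) : MvPolynomial (Fin 3) K := F4 c (X 0) (X 1) (X 2)

theorem aeval_G4 (c : ℕ → ℕ → K) {R : Type} [CommRing R] [Algebra K R] (x : Fin 3 → R) :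
    aeval x (G4 c) = F4 c (x 0) (x 1) (x 2) := by
  simp [G4, F4]

theorem mono_hom (a : K) (i j k : ℕ) :
    (C a * (X 0 ^ i * X 1 ^ j * X 2 ^ k) : MvPolynomial (Fin 3) K).IsHomogeneous (i + j + k) := by
  have h := ((((isHomogeneous_X K (0 : Fin 3)).pow i).mul
    ((isHomogeneous_X K (1 : Fin 3)).pow j)).mul ((isHomogeneous_X K (2 : Fin 3)).pow k)).C_mul a
  simpa using h

theorem G4_hom (c : ℕ → ℕ → K) : (G4 c).IsHomogeneous 4 := by
  have h1 : G4 c = C (c 0 0) * (X 0 ^ 0 * X 1 ^ 0 * X 2 ^ 4) + C (c 1 0) * (X 0 ^ 1 * X 1 ^ 0 * X 2 ^ 3)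
      + C (c 0 1) * (X 0 ^ 0 * X 1 ^ 1 * X 2 ^ 3) + C (c 2 0) * (X 0 ^ 2 * X 1 ^ 0 * X 2 ^ 2)
      + C (c 1 1) * (X 0 ^ 1 * X 1 ^ 1 * X 2 ^ 2) + C (c 0 2) * (X 0 ^ 0 * X 1 ^ 2 * X 2 ^ 2)
      + C (c 3 0) * (X 0 ^ 3 * X 1 ^ 0 * X 2 ^ 1) + C (c 2 1) * (X 0 ^ 2 * X 1 ^ 1 * X 2 ^ 1)
      + C (c 1 2) * (X 0 ^ 1 * X 1 ^ 2 * X 2 ^ 1) + C (c 0 3) * (X 0 ^ 0 * X 1 ^ 3 * X 2 ^ 1)
      + C (c 4 0) * (X 0 ^ 4 * X 1 ^ 0 * X 2 ^ 0) + C (c 3 1) * (X 0 ^ 3 * X 1 ^ 1 * X 2 ^ 0)
      + C (c 2 2) * (X 0 ^ 2 * X 1 ^ 2 * X 2 ^ 0) + C (c 1 3) * (X 0 ^ 1 * X 1 ^ 3 * X 2 ^ 0)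
      + C (c 0 4) * (X 0 ^ 0 * X 1 ^ 4 * X 2 ^ 0) := by
    simp only [G4, F4, algebraMap_eq]
    ring
  rw [h1]
  exact (((((((((((((((mono_hom _ 0 0 4).add (mono_hom _ 1 0 3)).add (mono_hom _ 0 1 3)).add
    (mono_hom _ 2 0 2)).add (mono_hom _ 1 1 2)).add (mono_hom _ 0 2 2)).add
    (mono_hom _ 3 0 1)).add (mono_hom _ 2 1 1)).add (mono_hom _ 1 2 1)).add
    (mono_hom _ 0 3 1)).add (mono_hom _ 4 0 0)).add (mono_hom _ 3 1 0)).add
    (mono_hom _ 2 2 0)).add (mono_hom _ 1 3 0)).add (mono_hom _ 0 4 0))

theorem dvd_of_eval {p : Polynomial K} (h : p.eval 0 = 0) : Polynomial.X ∣ p :=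
  Polynomial.X_dvd_iff.2 (by rw [Polynomial.coeff_zero_eq_eval_zero]; exact h)

/-- a common zero of l, E, h is singular on E² + l h -/
theorem sing_of (c : ℕ → ℕ → K) (L E H : MvPolynomial (Fin 3) K) (hG : G4 c = E ^ 2 + L * H)
    (p : Fin 3 → K) (hp : p ≠ 0) (h1 : eval p L = 0) (h2 : eval p E = 0) (h3 : eval p H = 0) :
    Sing c p := by
  refine ⟨hp, fun v => ?_⟩
  let z : Fin 3 → Polynomial K := fun i => Polynomial.C (p i) + Polynomial.C (v i) * Polynomial.X
  have hz : ∀ (P : MvPolynomial (Fin 3) K) (t : K),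
      (aeval z P).eval t = eval (fun i => p i + t * v i) P := by
    intro P t
    have h4 : (Polynomial.evalRingHom t).comp (aeval z : MvPolynomial (Fin 3) K →ₐ[K]
        Polynomial K).toRingHom = eval (fun i => p i + t * v i) := by
      apply MvPolynomial.ringHom_ext
      · intro r
        simp
      · intro i
        have h5 : (aeval z : MvPolynomial (Fin 3) K →ₐ[K] Polynomial K) (X i) = z i :=
          aeval_X _ _
        change Polynomial.eval t ((aeval z : MvPolynomial (Fin 3) K →ₐ[K] Polynomial K) (X i)) = _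
        rw [h5, eval_X]
        simp only [z, Polynomial.eval_add, Polynomial.eval_mul, Polynomial.eval_C,
          Polynomial.eval_X]
        ring
    exact RingHom.congr_fun h4 P
  have hz0 : ∀ P : MvPolynomial (Fin 3) K, eval p P = 0 → Polynomial.X ∣ aeval z P := by
    intro P hP
    apply dvd_of_eval
    rw [hz]
    refine Eq.trans ?_ hP
    congr 2
    funext i
    ring
  obtain ⟨l, hl⟩ := hz0 L h1
  obtain ⟨e, he⟩ := hz0 E h2
  obtain ⟨h, hh⟩ := hz0 H h3
  refine ⟨e ^ 2 + l * h, fun t => ?_⟩
  have h4 : F4 c (p 0 + t * v 0) (p 1 + t * v 1) (p 2 + t * v 2) =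
      eval (fun i => p i + t * v i) (G4 c) := by
    rw [← coe_aeval_eq_eval]
    exact (aeval_G4 c (fun i => p i + t * v i)).symm
  rw [h4, ← hz, hG, map_add, map_pow, map_mul, hl, he, hh]
  simp only [Polynomial.eval_add, Polynomial.eval_mul, Polynomial.eval_pow, Polynomial.eval_X]
  ring

/-- binary quadratic forms have zeros -/
theorem exists_zero [IsAlgClosed K] (a b c : K) :
    ∃ x y : K, (x ≠ 0 ∨ y ≠ 0) ∧ a * x ^ 2 + b * x * y + c * y ^ 2 = 0 := by
  by_cases hc : c = 0
  · exact ⟨0, 1, Or.inr one_ne_zero, by rw [hc]; ring⟩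
  · obtain ⟨y, hy⟩ := IsAlgClosed.exists_root
      (Polynomial.C c * Polynomial.X ^ 2 + Polynomial.C b * Polynomial.X + Polynomial.C a)
      (by rw [Polynomial.degree_quadratic hc]; exact two_ne_zero)
    refine ⟨1, y, Or.inl one_ne_zero, ?_⟩
    have h1 : Polynomial.eval y (Polynomial.C c * Polynomial.X ^ 2 +
      Polynomial.C b * Polynomial.X + Polynomial.C a) = 0 := hy
    simp at h1
    linear_combination h1

theorem third (i j : Fin 3) (h : i ≠ j) : ∃ m : Fin 3, m ≠ i ∧ m ≠ j ∧
    ∀ k, k = i ∨ k = j ∨ k = m := by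
  revert h
  revert i j
  decide

/-- a quartic form with l, E, h: a line on the surface l s² + 2 E s = h gives the decomposition -/
theorem main_step [IsAlgClosed K] (h20 : (2 : K) ≠ 0) (c : ℕ → ℕ → K) (i j m : Fin 3)
    (hm : m ≠ i ∧ m ≠ j) (α β : K) (E H : MvPolynomial (Fin 3) K)
    (hE : E.IsHomogeneous 2) (e0 e1 e2 : K)
    (hE' : ∀ x : Fin 3 → K, eval x E = e0 * x i ^ 2 + e1 * x i * x j + e2 * x j ^ 2)
    (hH : H.IsHomogeneous 3) (hG : G4 c = E ^ 2 + lin i j m α β * H)
    (U W : Fin 3 → K) (a b : K)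
    (hline : ∀ x y : K, eval (fun k => x * U k + y * W k) (lin i j m α β) * (x * a + y * b) ^ 2 +
      2 * eval (fun k => x * U k + y * W k) E * (x * a + y * b) -
        eval (fun k => x * U k + y * W k) H = 0)
    (i' j' : Fin 3) (hUi : U i' = 1) (hUj : U j' = 0) (hWi : W i' = 0) (hWj : W j' = 1) :
    (∃ p, Sing c p) ∨
    ∃ (q q' : Fin 6 → K) (l l' : Fin 3 → K), (∃ i j, l i * l' j - l j * l' i ≠ 0) ∧
      ∀ (R : Type) [CommRing R] [Algebra K R] (x y z : R),
        F4 c x y z = qf q x y z ^ 2 - lf l x y z * lf l' x y z * qf q' x y z := by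
  classical
  have hinf : Infinite K := IsAlgClosed.instInfinite
  let L : MvPolynomial (Fin 3) K := lin i j m α β
  have hne' : i' ≠ j' := by
    intro h
    rw [h, hUj] at hUi
    exact zero_ne_one hUi
  obtain ⟨m', hm1, hm2, hall⟩ := third i' j' hne'
  by_cases hLU : eval U L = 0 ∧ eval W L = 0
  · -- the line lies over the plane l = 0
    left
    obtain ⟨x, y, hxy, h0⟩ := exists_zero
      (e0 * U i ^ 2 + e1 * U i * U j + e2 * U j ^ 2)
      (2 * e0 * U i * W i + e1 * (U i * W j + U j * W i) + 2 * e2 * U j * W j)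
      (e0 * W i ^ 2 + e1 * W i * W j + e2 * W j ^ 2)
    have hLp : eval (fun k => x * U k + y * W k) L = 0 := by
      have h1 := hLU.1
      have h2 := hLU.2
      simp only [L, lin, map_sub, map_mul, eval_X, eval_C] at h1 h2 ⊢
      linear_combination x * h1 + y * h2
    have hEp : eval (fun k => x * U k + y * W k) E = 0 := by
      rw [hE']
      linear_combination h0
    have hHp : eval (fun k => x * U k + y * W k) H = 0 := by
      have h1 := hline x y
      change eval (fun k => x * U k + y * W k) L * _ + _ - _ = 0 at h1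
      rw [hLp, hEp] at h1
      linear_combination - h1
    refine ⟨fun k => x * U k + y * W k, sing_of c L E H hG _ ?_ hLp hEp hHp⟩
    intro h1
    have h2 := congrFun h1 i'
    have h3 := congrFun h1 j'
    simp only [hUi, hWi, hUj, hWj, Pi.zero_apply, mul_one, mul_zero, add_zero, zero_add] at h2 h3
    rcases hxy with h4 | h4
    · exact h4 h2
    · exact h4 h3
  · right
    -- the linear form with values a, b at U, W
    let S : MvPolynomial (Fin 3) K := C a * X i' + C b * X j'
    have hS : S.IsHomogeneous 1 :=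
      ((isHomogeneous_X K i').C_mul a).add ((isHomogeneous_X K j').C_mul b)
    let k : MvPolynomial (Fin 3) K := H - 2 * E * S - L * S ^ 2
    have hLh : L.IsHomogeneous 1 := lin_hom i j m α β
    have hk : k.IsHomogeneous (2 + 1) := by
      refine (hH.sub ?_).sub ?_
      · have h1 : (2 : MvPolynomial (Fin 3) K) * E * S = C (2 : K) * (E * S) := by
          rw [mul_assoc]
          rfl
        rw [h1]
        exact (hE.mul hS).C_mul 2
      · exact hLh.mul (hS.pow 2)
    have hkv : ∀ x : Fin 3 → K, x m' = U m' * x i' + W m' * x j' → eval x k = 0 := by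
      intro x hx
      have h1 : x = fun l => x i' * U l + x j' * W l := by
        funext l
        rcases hall l with h | h | h
        · rw [h, hUi, hWi]; ring
        · rw [h, hUj, hWj]; ring
        · rw [h, hx]; ring
      have h2 := hline (x i') (x j')
      rw [← h1] at h2
      simp only [k, map_sub, map_mul, map_pow, S, map_add, eval_C, eval_X, map_ofNat]
      change eval x L * _ + _ - _ = 0 at h2
      linear_combination - h2
    obtain ⟨Q, hQ, hkQ⟩ := div_lin (i := i') (j := j') (m := m') ⟨hm1, hm2⟩ (U m') (W m') hk hkv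
    let Q1 : MvPolynomial (Fin 3) K := E + L * S
    have hQ1 : Q1.IsHomogeneous 2 := hE.add (hLh.mul hS)
    obtain ⟨q, hq⟩ := exists_qf hQ1
    obtain ⟨q', hq'⟩ := exists_qf (H := - Q) hQ.neg
    refine ⟨q, q', lc i j m α β, lc i' j' m' (U m') (W m'), ?_, ?_⟩
    · by_contra hcon
      push_neg at hcon
      apply hLU
      let l := lc i j m α β
      let l' := lc i' j' m' (U m') (W m')
      have hl' : l' m' = 1 := by
        simp [l', lc, hm1, hm2]
      have hprop : ∀ n, l n = l m' * l' n := by
        intro n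
        have h1 : l n * l' m' - l m' * l' n = 0 := hcon n m'
        rw [hl'] at h1
        linear_combination h1
      have hev : ∀ x : Fin 3 → K, eval x L = l m' * (x m' - U m' * x i' - W m' * x j') := by
        intro x
        have h1 := lf_lc i j m α β (R := K) x
        have h2 := lf_lc i' j' m' (U m') (W m') (R := K) x
        simp only [Algebra.algebraMap_self, RingHom.id_apply] at h1 h2
        have h3 : eval x L = x m - α * x i - β * x j := by
          simp only [L, lin, map_sub, map_mul, eval_X, eval_C]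
        rw [h3, ← h1, ← h2]
        simp only [lf, Algebra.algebraMap_self, RingHom.id_apply]
        change l 0 * _ + l 1 * _ + l 2 * _ = _ * (l' 0 * _ + l' 1 * _ + l' 2 * _)
        rw [hprop 0, hprop 1, hprop 2]
        ring
      constructor
      · rw [hev, hUi, hUj]; ring
      · rw [hev, hWi, hWj]; ring
    · intro R _ _ x y z
      have h1 : G4 c = Q1 ^ 2 - L * (lin i' j' m' (U m') (W m')) * (- Q) := by
        have h2 : H = k + 2 * E * S + L * S ^ 2 := by
          simp only [k]; ring
        rw [hG, h2, hkQ]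
        simp only [Q1]
        change E ^ 2 + L * _ = _
        ring
      have h2 := congrArg (aeval ![x, y, z] : MvPolynomial (Fin 3) K →ₐ[K] R) h1
      rw [map_sub, map_pow, map_mul, map_mul, aeval_G4, hq, hq', aeval_lin, aeval_lin,
        ← lf_lc, ← lf_lc] at h2
      exact h2

/-- **(B)** decomposition of quartic forms -/
theorem decomp [IsAlgClosed K] (h2 : (2 : K) ≠ 0) (c : ℕ → ℕ → K) :
    (∃ p, Sing c p) ∨
    ∃ (q q' : Fin 6 → K) (l l' : Fin 3 → K), (∃ i j, l i * l' j - l j * l' i ≠ 0) ∧
      ∀ (R : Type) [CommRing R] [Algebra K R] (x y z : R),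
        F4 c x y z = qf q x y z ^ 2 - lf l x y z * lf l' x y z * qf q' x y z := by
  classical
  have hinf : Infinite K := IsAlgClosed.instInfinite
  obtain ⟨i, j, u, w, e0, e1, e2, hui, huj, hwi, hwj, hG⟩ := exists_bitangent h2 (G4 c) (G4_hom c)
  have hne : i ≠ j := by
    intro h
    rw [h, huj] at hui
    exact zero_ne_one hui
  obtain ⟨m, hm1, hm2, hall⟩ := third i j hne
  let E : MvPolynomial (Fin 3) K := C e0 * X i ^ 2 + C e1 * (X i * X j) + C e2 * X j ^ 2
  have hE : E.IsHomogeneous 2 := by
    refine (IsHomogeneous.add ?_ ?_).add ?_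
    · exact ((isHomogeneous_X K i).pow 2).C_mul e0
    · exact ((isHomogeneous_X K i).mul (isHomogeneous_X K j)).C_mul e1
    · exact ((isHomogeneous_X K j).pow 2).C_mul e2
  have hE' : ∀ x : Fin 3 → K, eval x E = e0 * x i ^ 2 + e1 * x i * x j + e2 * x j ^ 2 := by
    intro x
    simp only [E, map_add, map_mul, map_pow, eval_C, eval_X]
    ring
  have hd : (G4 c - E ^ 2).IsHomogeneous (3 + 1) := (G4_hom c).sub (hE.pow 2)
  obtain ⟨H, hH, hGH⟩ := div_lin (i := i) (j := j) (m := m) ⟨hm1, hm2⟩ (u m) (w m) hd (by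
    intro x hx
    have h1 : x = fun l => x i * u l + x j * w l := by
      funext l
      rcases hall l with h | h | h
      · rw [h, hui, hwi]; ring
      · rw [h, huj, hwj]; ring
      · rw [h, hx]; ring
    have h3 := hG (x i) (x j)
    rw [← h1] at h3
    rw [map_sub, map_pow, hE', h3]
    ring)
  have hG4 : G4 c = E ^ 2 + lin i j m (u m) (w m) * H := by
    rw [← hGH]; ring
  -- the cubic surface
  let ι : Fin 3 → Fin 4 := Fin.castSucc
  let L : MvPolynomial (Fin 3) K := lin i j m (u m) (w m)
  let G3 : MvPolynomial (Fin 4) K := rename ι L * X 3 ^ 2 + C 2 * (rename ι E * X 3) - rename ι H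
  have hG3 : G3.IsHomogeneous 3 := by
    refine (IsHomogeneous.add ?_ ?_).sub ?_
    · exact ((lin_hom i j m (u m) (w m)).rename_isHomogeneous).mul ((isHomogeneous_X K 3).pow 2)
    · exact ((hE.rename_isHomogeneous).mul (isHomogeneous_X K 3)).C_mul 2
    · exact hH.rename_isHomogeneous
  obtain ⟨i0, j0, U, W, hUi, hUj, hWi, hWj, hl⟩ :=
    Pool.Agent.Helper87.CC.Line.exists_line G3 hG3
  have hne0 : i0 ≠ j0 := by
    intro h
    rw [h, hUj] at hUi
    exact zero_ne_one hUi
  have hl' : ∀ x y : K, eval (fun k => x * U (ι k) + y * W (ι k)) L * (x * U 3 + y * W 3) ^ 2 +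
      2 * eval (fun k => x * U (ι k) + y * W (ι k)) E * (x * U 3 + y * W 3) -
        eval (fun k => x * U (ι k) + y * W (ι k)) H = 0 := by
    intro x y
    have h3 := hl x y
    simp only [G3, map_sub, map_add, map_mul, map_pow, eval_rename, eval_C, eval_X] at h3
    have h4 : (fun k => x * U k + y * W k) ∘ ι = fun k => x * U (ι k) + y * W (ι k) := rfl
    rw [h4] at h3
    linear_combination h3
  -- the vertex
  have hvert : ∀ p : Fin 3 → K, p ≠ 0 → (∀ s : K, eval p L * s ^ 2 + 2 * eval p E * s -
      eval p H = 0) → ∃ p, Sing c p := by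
    intro p hp h3
    have k0 := h3 0
    have k1 := h3 1
    have k2 := h3 (-1)
    have r0 : eval p H = 0 := by linear_combination - k0
    have r1 : 2 * eval p L = 0 := by linear_combination k1 + k2 + 2 * r0
    have r1' : eval p L = 0 := (mul_eq_zero.1 r1).resolve_left h2
    have r2 : 2 * (2 * eval p E) = 0 := by linear_combination k1 - k2
    have r2' : eval p E = 0 :=
      (mul_eq_zero.1 ((mul_eq_zero.1 r2).resolve_left h2)).resolve_left h2
    exact ⟨p, sing_of c L E H hG4 p hp r1' r2' r0⟩
  by_cases hmin : ∃ a b : Fin 3, U (ι a) * W (ι b) - U (ι b) * W (ι a) ≠ 0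
  · obtain ⟨a, b, hM⟩ := hmin
    let M : K := U (ι a) * W (ι b) - U (ι b) * W (ι a)
    have hMdef : M = U (ι a) * W (ι b) - U (ι b) * W (ι a) := rfl
    have hM0 : M ≠ 0 := hM
    refine main_step h2 c i j m ⟨hm1, hm2⟩ (u m) (w m) E H hE e0 e1 e2 hE' hH hG4
      (fun k => (W (ι b) * U (ι k) - U (ι b) * W (ι k)) / M)
      (fun k => (- W (ι a) * U (ι k) + U (ι a) * W (ι k)) / M)
      ((W (ι b) * U 3 - U (ι b) * W 3) / M) ((- W (ι a) * U 3 + U (ι a) * W 3) / M)
      ?_ a b ?_ ?_ ?_ ?_
    · intro x y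
      have h3 := hl' ((x * W (ι b) - y * W (ι a)) / M) ((- x * U (ι b) + y * U (ι a)) / M)
      have h4 : (fun k => (x * W (ι b) - y * W (ι a)) / M * U (ι k) +
          (- x * U (ι b) + y * U (ι a)) / M * W (ι k)) =
          fun k => x * ((W (ι b) * U (ι k) - U (ι b) * W (ι k)) / M) +
            y * ((- W (ι a) * U (ι k) + U (ι a) * W (ι k)) / M) := by
        funext k
        ring
      rw [h4] at h3
      have h5 : (x * W (ι b) - y * W (ι a)) / M * U 3 + (- x * U (ι b) + y * U (ι a)) / M * W 3 =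
          x * ((W (ι b) * U 3 - U (ι b) * W 3) / M) +
            y * ((- W (ι a) * U 3 + U (ι a) * W 3) / M) := by ring
      rw [h5] at h3
      exact h3
    · change (W (ι b) * U (ι a) - U (ι b) * W (ι a)) / M = 1
      rw [div_eq_one_iff_eq hM0, hMdef]; ring
    · change (W (ι b) * U (ι b) - U (ι b) * W (ι b)) / M = 0
      rw [div_eq_zero_iff]; left; ring
    · change (- W (ι a) * U (ι a) + U (ι a) * W (ι a)) / M = 0
      rw [div_eq_zero_iff]; left; ring
    · change (- W (ι a) * U (ι b) + U (ι a) * W (ι b)) / M = 1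
      rw [div_eq_one_iff_eq hM0, hMdef]; ring
  · push_neg at hmin
    left
    rcases Fin.eq_castSucc_or_eq_last i0 with ⟨i1, hi⟩ | hi
    · rcases Fin.eq_castSucc_or_eq_last j0 with ⟨j1, hj⟩ | hj
      · exfalso
        have h3 := hmin i1 j1
        change U i1.castSucc * W j1.castSucc - U j1.castSucc * W i1.castSucc = 0 at h3
        rw [← hi, ← hj, hUi, hUj, hWi, hWj] at h3
        simp at h3
      · have hW0 : ∀ k, W (ι k) = 0 := by
          intro k
          have h3 := hmin i1 k
          change U i1.castSucc * W (ι k) - U (ι k) * W i1.castSucc = 0 at h3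
          rw [← hi, hUi, hWi] at h3
          linear_combination h3
        have hU3 : U 3 = 0 := by
          have h3 : (3 : Fin 4) = j0 := by rw [hj]; rfl
          rw [h3]; exact hUj
        have hW3 : W 3 = 1 := by
          have h3 : (3 : Fin 4) = j0 := by rw [hj]; rfl
          rw [h3]; exact hWj
        apply hvert (fun k => U (ι k))
        · intro h3
          have h4 := congrFun h3 i1
          change U i1.castSucc = 0 at h4
          rw [← hi, hUi] at h4
          exact one_ne_zero h4
        · intro s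
          have h3 := hl' 1 s
          have h4 : (fun k => 1 * U (ι k) + s * W (ι k)) = fun k => U (ι k) := by
            funext k
            rw [hW0]; ring
          rw [h4, hU3, hW3] at h3
          linear_combination h3
    · rcases Fin.eq_castSucc_or_eq_last j0 with ⟨j1, hj⟩ | hj
      · have hU0 : ∀ k, U (ι k) = 0 := by
          intro k
          have h3 := hmin k j1
          change U (ι k) * W j1.castSucc - U j1.castSucc * W (ι k) = 0 at h3
          rw [← hj, hUj, hWj] at h3
          linear_combination h3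
        have hU3 : U 3 = 1 := by
          have h3 : (3 : Fin 4) = i0 := by rw [hi]; rfl
          rw [h3]; exact hUi
        have hW3 : W 3 = 0 := by
          have h3 : (3 : Fin 4) = i0 := by rw [hi]; rfl
          rw [h3]; exact hWi
        apply hvert (fun k => W (ι k))
        · intro h3
          have h4 := congrFun h3 j1
          change W j1.castSucc = 0 at h4
          rw [← hj, hWj] at h4
          exact one_ne_zero h4
        · intro s
          have h3 := hl' s 1
          have h4 : (fun k => s * U (ι k) + 1 * W (ι k)) = fun k => W (ι k) := by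
            funext k
            rw [hU0]; ring
          rw [h4, hU3, hW3] at h3
          linear_combination h3
      · exact absurd (hi.trans hj.symm) hne0

end Main

end Pool.Agent.Helper71.CQ
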