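import Pool.Agent.Helper87.CC.Line

/-!
# Every plane quartic over an algebraically closed field of characteristic not 2 has a bitangent

There is a line on which the quartic form is a square.  Proof: deformation of the quartic
x₀⁴ + x₂ x₁³ (whose line x₂ = 0 is isolated) over the power series, and specialisation of the
line along a valuation ring.
-/

namespace Pool.Agent.Helper71.CQ

open MvPolynomial

/-- contraction principle for power series -/
theorem exists_fixed {K : Type} [Field K] {ι : Type}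
    (Φ : (ι → PowerSeries K) → ι → PowerSeries K)
    (hΦ : ∀ (n : ℕ) (z z' : ι → PowerSeries K),
      (∀ i, (PowerSeries.X : PowerSeries K) ^ n ∣ z i - z' i) →
      ∀ i, (PowerSeries.X : PowerSeries K) ^ (n + 1) ∣ Φ z i - Φ z' i) :
    ∃ z : ι → PowerSeries K, ∀ i, z i = Φ z i := by
  let s : ℕ → ι → PowerSeries K := fun n => Φ^[n] 0
  have hs : ∀ n, s (n + 1) = Φ (s n) := fun n => Function.iterate_succ_apply' Φ n 0
  have h1 : ∀ n i, (PowerSeries.X : PowerSeries K) ^ n ∣ s (n + 1) i - s n i := by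
    intro n
    induction n with
    | zero => intro i; rw [pow_zero]; exact one_dvd _
    | succ n ih =>
      intro i
      rw [hs (n + 1), hs n]
      have := hΦ n (s (n + 1)) (s n) ih i
      rwa [hs n] at this
  have h2 : ∀ n m, n ≤ m → ∀ i, (PowerSeries.X : PowerSeries K) ^ n ∣ s m i - s n i := by
    intro n m hnm
    induction m, hnm using Nat.le_induction with
    | base => intro i; rw [sub_self]; exact dvd_zero _
    | succ m hm ih =>
      intro i
      have h3 : s (m + 1) i - s n i = (s (m + 1) i - s m i) + (s m i - s n i) := by ring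
      rw [h3]
      exact dvd_add ((pow_dvd_pow _ hm).trans (h1 m i)) (ih i)
  let z : ι → PowerSeries K := fun i => PowerSeries.mk fun n => PowerSeries.coeff n (s (n + 1) i)
  have h3 : ∀ n i, (PowerSeries.X : PowerSeries K) ^ n ∣ z i - s n i := by
    intro n i
    rw [PowerSeries.X_pow_dvd_iff]
    intro m hm
    have h4 := PowerSeries.X_pow_dvd_iff.1 (h2 (m + 1) n hm i) m (Nat.lt_succ_self m)
    rw [map_sub] at h4 ⊢
    simp only [z, PowerSeries.coeff_mk]
    rw [← neg_sub, h4, neg_zero]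
  refine ⟨z, fun i => ?_⟩
  have h4 : ∀ n, (PowerSeries.X : PowerSeries K) ^ n ∣ z i - Φ z i := by
    intro n
    have h5 : z i - Φ z i = (z i - s (n + 1) i) + (Φ (s n) i - Φ z i) := by
      rw [hs]
      ring
    rw [h5]
    refine dvd_add ((pow_dvd_pow _ (Nat.le_succ n)).trans (h3 (n + 1) i)) ?_
    rw [← neg_sub, dvd_neg]
    exact (pow_dvd_pow _ (Nat.le_succ n)).trans (hΦ n z (s n) (h3 n) i)
  rw [← sub_eq_zero]
  ext n
  rw [map_zero]
  exact PowerSeries.X_pow_dvd_iff.1 (h4 (n + 1)) n (Nat.lt_succ_self n)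

section Bin

variable {K C C' : Type} [CommRing K] [CommRing C] [CommRing C']

/-- the points of the line x₂ = a x₀ + b x₁ -/
noncomputable def pt (a b : C) : Fin 3 → Polynomial C :=
  ![1, Polynomial.X, Polynomial.C a + Polynomial.C b * Polynomial.X]

/-- the restriction of a form to the line -/
noncomputable def bin (φ : K →+* C) (G : MvPolynomial (Fin 3) K) (a b : C) : Polynomial C :=
  eval₂ (Polynomial.C.comp φ) (pt a b) G

theorem bin_map (φ : K →+* C) (ψ : C →+* C') (G : MvPolynomial (Fin 3) K) (a b : C) :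
    (bin φ G a b).map ψ = bin (ψ.comp φ) G (ψ a) (ψ b) := by
  rw [bin, bin, ← Polynomial.coe_mapRingHom, eval₂_comp_left]
  congr 1
  · ext x
    simp
  · funext i
    fin_cases i <;> simp [pt]

theorem bin_congr (φ : K →+* C) (G : MvPolynomial (Fin 3) K) (a b a' b' : C) (d : C)
    (ha : d ∣ a - a') (hb : d ∣ b - b') (j : ℕ) :
    d ∣ (bin φ G a b).coeff j - (bin φ G a' b').coeff j := by
  rw [← Ideal.mem_span_singleton, ← Ideal.Quotient.eq]
  have h1 := congrArg (fun p => Polynomial.coeff p j)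
    (bin_map φ (Ideal.Quotient.mk (Ideal.span {d})) G a b)
  have h2 := congrArg (fun p => Polynomial.coeff p j)
    (bin_map φ (Ideal.Quotient.mk (Ideal.span {d})) G a' b')
  simp only [Polynomial.coeff_map] at h1 h2
  rw [h1, h2]
  have h3 : Ideal.Quotient.mk (Ideal.span {d}) a = Ideal.Quotient.mk (Ideal.span {d}) a' := by
    rw [Ideal.Quotient.eq, Ideal.mem_span_singleton]
    exact ha
  have h4 : Ideal.Quotient.mk (Ideal.span {d}) b = Ideal.Quotient.mk (Ideal.span {d}) b' := by
    rw [Ideal.Quotient.eq, Ideal.mem_span_singleton]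
    exact hb
  rw [h3, h4]

theorem pt_natDegree {C : Type} [CommRing C] (a b : C) (i : Fin 3) :
    (pt a b i).natDegree ≤ 1 := by
  fin_cases i
  · change (1 : Polynomial C).natDegree ≤ 1
    rw [Polynomial.natDegree_one]
    exact Nat.zero_le _
  · exact Polynomial.natDegree_X_le
  · change (Polynomial.C a + Polynomial.C b * Polynomial.X).natDegree ≤ 1
    compute_degree

theorem bin_natDegree {K C : Type} [CommRing K] [CommRing C] (φ : K →+* C)
    (G : MvPolynomial (Fin 3) K) (n : ℕ) (hG : G.totalDegree ≤ n) (a b : C) :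
    (bin φ G a b).natDegree ≤ n := by
  classical
  have h1 : bin φ G a b = aeval (pt a b) (map φ G) := by
    rw [aeval_def, eval₂_map]
    rfl
  have h2 : (map φ G).totalDegree ≤ n :=
    (Finset.sup_mono (support_map_subset φ G)).trans hG
  rw [h1]
  simpa using aeval_natDegree_le _ h2 _ (pt_natDegree a b)

theorem eval_bin {K C : Type} [CommRing K] [CommRing C] (φ : K →+* C)
    (G : MvPolynomial (Fin 3) K) (a b : C) (y : C) :
    (bin φ G a b).eval y = eval (fun i => (pt a b i).eval y) (map φ G) := by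
  rw [bin, ← Polynomial.coe_evalRingHom, eval₂_comp_left, ← eval₂_id, eval₂_map,
    RingHom.id_comp]
  congr 1
  ext x
  simp

end Bin

/-- the solution on a small deformation of x₀⁴ + x₂ x₁³ -/
theorem exists_def {K : Type} [Field K] (h2 : (2 : K) ≠ 0) (G : MvPolynomial (Fin 3) K) :
    ∃ e0 e1 e2 a b : PowerSeries K,
      e0 ^ 2 = 1 + PowerSeries.X ^ 2 * (bin (PowerSeries.C (R := K)) G a b).coeff 0 ∧
      2 * e0 * e1 = PowerSeries.X ^ 2 * (bin (PowerSeries.C (R := K)) G a b).coeff 1 ∧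
      e1 ^ 2 + 2 * e0 * e2 = PowerSeries.X ^ 2 * (bin (PowerSeries.C (R := K)) G a b).coeff 2 ∧
      2 * e1 * e2 = a + PowerSeries.X ^ 2 * (bin (PowerSeries.C (R := K)) G a b).coeff 3 ∧
      e2 ^ 2 = b + PowerSeries.X ^ 2 * (bin (PowerSeries.C (R := K)) G a b).coeff 4 := by
  let T : PowerSeries K := PowerSeries.X ^ 2
  let c : PowerSeries K := PowerSeries.C (1 / 2)
  have hc : 2 * c = 1 := by
    have h3 : (2 : PowerSeries K) = PowerSeries.C (2 : K) :=
      (map_ofNat (PowerSeries.C (R := K)) 2).symm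
    rw [h3, ← map_mul, mul_one_div_cancel h2, map_one]
  let g : (Fin 5 → PowerSeries K) → ℕ → PowerSeries K := fun z j =>
    (bin (PowerSeries.C (R := K)) G (T * z 3) (T * z 4)).coeff j
  let Φ : (Fin 5 → PowerSeries K) → Fin 5 → PowerSeries K := fun z =>
    ![c * (g z 0 - T * z 0 ^ 2), c * g z 1 - T * (z 0 * z 1),
      c * (g z 2 - T * z 1 ^ 2) - T * (z 0 * z 2), - g z 3 + T * (2 * z 1 * z 2),
      - g z 4 + T * z 2 ^ 2]
  have hTd : ∀ (n : ℕ) (x : PowerSeries K), (PowerSeries.X : PowerSeries K) ^ n ∣ x →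
      (PowerSeries.X : PowerSeries K) ^ (n + 1) ∣ T * x := by
    intro n x hx
    rw [pow_succ']
    refine mul_dvd_mul ?_ hx
    exact dvd_pow_self _ two_ne_zero
  have hΦ : ∀ (n : ℕ) (z z' : Fin 5 → PowerSeries K),
      (∀ i, (PowerSeries.X : PowerSeries K) ^ n ∣ z i - z' i) →
      ∀ i, (PowerSeries.X : PowerSeries K) ^ (n + 1) ∣ Φ z i - Φ z' i := by
    intro n z z' h i
    have hg : ∀ j, (PowerSeries.X : PowerSeries K) ^ (n + 1) ∣ g z j - g z' j := by
      intro j
      apply bin_congr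
      · rw [← mul_sub]; exact hTd n _ (h 3)
      · rw [← mul_sub]; exact hTd n _ (h 4)
    have hm : ∀ i j, (PowerSeries.X : PowerSeries K) ^ n ∣ z i * z j - z' i * z' j := by
      intro i j
      have h5 : z i * z j - z' i * z' j = (z i - z' i) * z j + z' i * (z j - z' j) := by ring
      rw [h5]
      exact dvd_add (Dvd.dvd.mul_right (h i) _) (Dvd.dvd.mul_left (h j) _)
    fin_cases i
    · have h5 : Φ z 0 - Φ z' 0 = c * (g z 0 - g z' 0) - c * (T * (z 0 * z 0 - z' 0 * z' 0)) := by
        simp only [Φ, Matrix.cons_val_zero]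
        ring
      change _ ∣ Φ z 0 - Φ z' 0
      rw [h5]
      exact dvd_sub (Dvd.dvd.mul_left (hg 0) _) (Dvd.dvd.mul_left (hTd n _ (hm 0 0)) _)
    · have h5 : Φ z 1 - Φ z' 1 = c * (g z 1 - g z' 1) - T * (z 0 * z 1 - z' 0 * z' 1) := by
        simp only [Φ, Matrix.cons_val_one, Matrix.cons_val_zero]
        ring
      change _ ∣ Φ z 1 - Φ z' 1
      rw [h5]
      exact dvd_sub (Dvd.dvd.mul_left (hg 1) _) (hTd n _ (hm 0 1))
    · have h5 : Φ z 2 - Φ z' 2 = c * (g z 2 - g z' 2) - c * (T * (z 1 * z 1 - z' 1 * z' 1)) -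
          T * (z 0 * z 2 - z' 0 * z' 2) := by
        change (c * (g z 2 - T * z 1 ^ 2) - T * (z 0 * z 2)) -
          (c * (g z' 2 - T * z' 1 ^ 2) - T * (z' 0 * z' 2)) = _
        ring
      change _ ∣ Φ z 2 - Φ z' 2
      rw [h5]
      exact dvd_sub (dvd_sub (Dvd.dvd.mul_left (hg 2) _) (Dvd.dvd.mul_left (hTd n _ (hm 1 1)) _))
        (hTd n _ (hm 0 2))
    · have h5 : Φ z 3 - Φ z' 3 = - (g z 3 - g z' 3) + 2 * (T * (z 1 * z 2 - z' 1 * z' 2)) := by
        change (- g z 3 + T * (2 * z 1 * z 2)) - (- g z' 3 + T * (2 * z' 1 * z' 2)) = _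
        ring
      change _ ∣ Φ z 3 - Φ z' 3
      rw [h5]
      exact dvd_add ((dvd_neg).2 (hg 3)) (Dvd.dvd.mul_left (hTd n _ (hm 1 2)) _)
    · have h5 : Φ z 4 - Φ z' 4 = - (g z 4 - g z' 4) + T * (z 2 * z 2 - z' 2 * z' 2) := by
        change (- g z 4 + T * z 2 ^ 2) - (- g z' 4 + T * z' 2 ^ 2) = _
        ring
      change _ ∣ Φ z 4 - Φ z' 4
      rw [h5]
      exact dvd_add ((dvd_neg).2 (hg 4)) (hTd n _ (hm 2 2))
  obtain ⟨z, hz⟩ := exists_fixed Φ hΦ
  have z0 : z 0 = c * (g z 0 - T * z 0 ^ 2) := hz 0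
  have z1 : z 1 = c * g z 1 - T * (z 0 * z 1) := hz 1
  have z2 : z 2 = c * (g z 2 - T * z 1 ^ 2) - T * (z 0 * z 2) := hz 2
  have z3 : z 3 = - g z 3 + T * (2 * z 1 * z 2) := hz 3
  have z4 : z 4 = - g z 4 + T * z 2 ^ 2 := hz 4
  refine ⟨1 + T * z 0, T * z 1, T * z 2, T * z 3, T * z 4, ?_, ?_, ?_, ?_, ?_⟩
  · change _ = 1 + T * g z 0
    linear_combination 2 * T * z0 + (T * (g z 0 - T * z 0 ^ 2)) * hc
  · change _ = T * g z 1
    linear_combination 2 * T * z1 + T * g z 1 * hc
  · change _ = T * g z 2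
    linear_combination 2 * T * z2 + (T * (g z 2 - T * z 1 ^ 2)) * hc
  · change _ = T * z 3 + T * g z 3
    linear_combination - T * z3
  · change _ = T * z 4 + T * g z 4
    linear_combination - T * z4

/-- evaluation of homogeneous polynomials -/
theorem eval_hom {E : Type} [CommRing E] {H : MvPolynomial (Fin 3) E} {n : ℕ}
    (hH : H.IsHomogeneous n) (c : E) (v : Fin 3 → E) :
    eval (fun i => c * v i) H = c ^ n * eval v H := by
  rw [eval_eq, eval_eq, Finset.mul_sum]
  refine Finset.sum_congr rfl fun d hd => ?_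
  have h1 : ∑ i ∈ d.support, d i = n := by
    have := hH (mem_support_iff.1 hd)
    rw [← this]
    exact DFunLike.congr_fun (Finsupp.degree_eq_weight_one (R := ℕ) (σ := Fin 3)) d
  have h2 : ∏ i ∈ d.support, (c * v i) ^ d i = c ^ n * ∏ i ∈ d.support, v i ^ d i := by
    simp only [mul_pow]
    rw [Finset.prod_mul_distrib, Finset.prod_pow_eq_pow_sum, h1]
  rw [h2]
  ring

/-- from an affine part of the line to the whole line -/
theorem square_all {E : Type} [Field E] [Infinite E] {H : MvPolynomial (Fin 3) E}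
    (hH : H.IsHomogeneous 4) (u w : Fin 3 → E) (e0 e1 e2 : E)
    (h : ∀ y, eval (fun i => u i + y * w i) H = (e0 + e1 * y + e2 * y ^ 2) ^ 2)
    (x y : E) : eval (fun i => x * u i + y * w i) H =
      (e0 * x ^ 2 + e1 * x * y + e2 * y ^ 2) ^ 2 := by
  have h1 : ∀ x y : E, x ≠ 0 → eval (fun i => x * u i + y * w i) H =
      (e0 * x ^ 2 + e1 * x * y + e2 * y ^ 2) ^ 2 := by
    intro x y hx
    have h2 : (fun i => x * u i + y * w i) = fun i => x * (u i + (y / x) * w i) := by
      funext i
      field_simp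
    rw [h2, eval_hom hH, h]
    field_simp
  by_cases hx : x = 0
  · let R : Polynomial E := aeval (fun i => Polynomial.C (u i) * Polynomial.X +
      Polynomial.C (y * w i)) H - (Polynomial.C e0 * Polynomial.X ^ 2 +
        Polynomial.C (e1 * y) * Polynomial.X + Polynomial.C (e2 * y ^ 2)) ^ 2
    have hR : ∀ t : E, R.eval t = eval (fun i => t * u i + y * w i) H -
        (e0 * t ^ 2 + e1 * t * y + e2 * y ^ 2) ^ 2 := by
      intro t
      have h3 : (Polynomial.evalRingHom t).comp (aeval (fun i => Polynomial.C (u i) * Polynomial.X +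
          Polynomial.C (y * w i)) : MvPolynomial (Fin 3) E →ₐ[E] Polynomial E).toRingHom =
          (eval (fun i => t * u i + y * w i)) := by
        apply MvPolynomial.ringHom_ext
        · intro r
          simp
        · intro i
          have h5 : (aeval (fun i => Polynomial.C (u i) * Polynomial.X +
              Polynomial.C (y * w i)) : MvPolynomial (Fin 3) E →ₐ[E] Polynomial E) (X i) =
              Polynomial.C (u i) * Polynomial.X + Polynomial.C (y * w i) := aeval_X _ _
          change Polynomial.eval t ((aeval (fun i => Polynomial.C (u i) * Polynomial.X +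
              Polynomial.C (y * w i)) : MvPolynomial (Fin 3) E →ₐ[E] Polynomial E) (X i)) = _
          rw [h5, eval_X, Polynomial.eval_add, Polynomial.eval_mul, Polynomial.eval_C,
            Polynomial.eval_C, Polynomial.eval_X, mul_comm]
      have h6 := RingHom.congr_fun h3 H
      change Polynomial.eval t _ = _ at h6
      simp only [R, Polynomial.eval_sub, Polynomial.eval_pow, Polynomial.eval_add,
        Polynomial.eval_mul, Polynomial.eval_C, Polynomial.eval_X]
      rw [← h6]
      congr 1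
      ring
    have h4 : R = 0 := by
      apply Polynomial.eq_zero_of_infinite_isRoot
      refine Set.Infinite.mono (s := {0}ᶜ) ?_ (Set.Finite.infinite_compl (Set.finite_singleton 0))
      intro t ht
      change R.eval t = 0
      rw [hR, h1 t y ht, sub_self]
    rw [hx]
    rw [← sub_eq_zero, ← hR, h4, Polynomial.eval_zero]
  · exact h1 x y hx

/-- bitangents and valuations -/
theorem residue_square {K E : Type} [Field K] [Field E] (φ : K →+* E)
    (O : ValuationSubring E) (hφ : ∀ x, φ x ∈ O) (s : E) (hs : s ∈ O.nonunits) (G F : MvPolynomial (Fin 3) K)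
    (u w : Fin 3 → E) (huw : ∃ i j, u i * w j - u j * w i ≠ 0) (e0 e1 e2 : E)
    (h : ∀ x y : E, eval (fun i => x * u i + y * w i) (map φ G + C s * map φ F) =
      (e0 * x ^ 2 + e1 * x * y + e2 * y ^ 2) ^ 2) :
    ∃ (κ : Type) (_ : Field κ) (_ : Algebra K κ) (i j : Fin 3) (u' w' : Fin 3 → κ)
      (f0 f1 f2 : κ), u' i = 1 ∧ u' j = 0 ∧ w' i = 0 ∧ w' j = 1 ∧
      ∀ x y : K, eval (fun k => algebraMap K κ x * u' k + algebraMap K κ y * w' k)
        (map (algebraMap K κ) G) = (f0 * algebraMap K κ x ^ 2 +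
          f1 * algebraMap K κ x * algebraMap K κ y + f2 * algebraMap K κ y ^ 2) ^ 2 := by
  classical
  let M : Fin 3 × Fin 3 → E := fun ij => u ij.1 * w ij.2 - u ij.2 * w ij.1
  obtain ⟨⟨i, j⟩, hij⟩ := Finite.exists_max (fun ij => O.valuation (M ij))
  have hM0 : M (i, j) ≠ 0 := by
    obtain ⟨i', j', h1⟩ := huw
    intro h2
    have h3 := hij (i', j')
    rw [h2, map_zero, le_zero_iff, map_eq_zero] at h3
    exact h1 h3
  have hdiv : ∀ kl : Fin 3 × Fin 3, M kl / M (i, j) ∈ O := by
    intro kl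
    obtain ⟨a, ha⟩ := (O.valuation_le_iff (M kl) (M (i, j))).1 (hij kl)
    rw [← ha, mul_div_assoc, div_self hM0, mul_one]
    exact a.2
  let φ' : K →+* O := φ.codRestrict O.toSubring hφ
  have hsO : s ∈ O := ValuationSubring.nonunits_subset hs
  let s' : O := ⟨s, hsO⟩
  let uO : Fin 3 → O := fun k => ⟨M (k, j) / M (i, j), hdiv _⟩
  let wO : Fin 3 → O := fun k => ⟨M (i, k) / M (i, j), hdiv _⟩
  -- the coefficients of the square root in the new coordinates
  obtain ⟨g0, g1, g2, hg⟩ : ∃ g0 g1 g2 : E, ∀ x y : E,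
      e0 * ((x * w j - y * w i) / M (i, j)) ^ 2 + e1 * ((x * w j - y * w i) / M (i, j)) *
        ((- x * u j + y * u i) / M (i, j)) + e2 * ((- x * u j + y * u i) / M (i, j)) ^ 2 =
      g0 * x ^ 2 + g1 * x * y + g2 * y ^ 2 := by
    refine ⟨(e0 * w j ^ 2 - e1 * w j * u j + e2 * u j ^ 2) / M (i, j) ^ 2,
      (- 2 * e0 * w i * w j + e1 * (w j * u i + w i * u j) - 2 * e2 * u i * u j) / M (i, j) ^ 2,
      (e0 * w i ^ 2 - e1 * w i * u i + e2 * u i ^ 2) / M (i, j) ^ 2, ?_⟩
    intro x y
    field_simp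
    ring
  have hE0 : ∀ x y : O, ((eval (fun k => x * uO k + y * wO k) (map φ' G + C s' * map φ' F) : O) : E)
      = (g0 * x ^ 2 + g1 * x * y + g2 * y ^ 2) ^ 2 := by
    intro x y
    have h1 : (O.subtype) (eval (fun k => x * uO k + y * wO k) (map φ' G + C s' * map φ' F)) =
        eval (fun k => (x : E) * (M (k, j) / M (i, j)) + (y : E) * (M (i, k) / M (i, j)))
          (map φ G + C s * map φ F) := by
      rw [← eval₂_id, ← eval₂_id, eval₂_comp_left]
      rw [RingHom.comp_id, eval₂_add, eval₂_add, eval₂_mul, eval₂_mul, eval₂_map, eval₂_map,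
        eval₂_map, eval₂_map, eval₂_C, eval₂_C]
      rfl
    refine h1.trans ?_
    have h2 : (fun k => (x : E) * (M (k, j) / M (i, j)) + (y : E) * (M (i, k) / M (i, j))) =
        fun k => (((x : E) * w j - (y : E) * w i) / M (i, j)) * u k +
          ((- (x : E) * u j + (y : E) * u i) / M (i, j)) * w k := by
      funext k
      simp only [M]
      ring
    rw [h2, h, hg]
  have hsq : ∀ a : E, a ^ 2 ∈ O → a ∈ O := by
    intro a ha
    rw [← O.valuation_le_one_iff] at ha ⊢
    rw [map_pow] at ha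
    exact (pow_le_one_iff two_ne_zero).1 ha
  have hg0 : g0 ∈ O := by
    apply hsq
    have h1 := (eval (fun k => (1 : O) * uO k + (0 : O) * wO k) (map φ' G + C s' * map φ' F) : O).2
    rw [hE0] at h1
    simpa using h1
  have hg2 : g2 ∈ O := by
    apply hsq
    have h1 := (eval (fun k => (0 : O) * uO k + (1 : O) * wO k) (map φ' G + C s' * map φ' F) : O).2
    rw [hE0] at h1
    simpa using h1
  have hg1 : g1 ∈ O := by
    have h0 : g0 + g1 + g2 ∈ O := by
      apply hsq
      have h1 := (eval (fun k => (1 : O) * uO k + (1 : O) * wO k)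
        (map φ' G + C s' * map φ' F) : O).2
      rw [hE0] at h1
      simpa using h1
    have h1 : g1 = (g0 + g1 + g2) - g0 - g2 := by ring
    rw [h1]
    exact sub_mem (sub_mem h0 hg0) hg2
  let g0' : O := ⟨g0, hg0⟩
  let g1' : O := ⟨g1, hg1⟩
  let g2' : O := ⟨g2, hg2⟩
  have hE : ∀ x y : O, eval (fun k => x * uO k + y * wO k) (map φ' G + C s' * map φ' F) =
      (g0' * x ^ 2 + g1' * x * y + g2' * y ^ 2) ^ 2 := by
    intro x y
    apply O.subtype_injective
    exact hE0 x y
  let κ := IsLocalRing.ResidueField O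
  let ρ : O →+* κ := IsLocalRing.residue O
  let _ : Algebra K κ := (ρ.comp φ').toAlgebra
  have hs0 : ρ s' = 0 := by
    rw [IsLocalRing.residue_eq_zero_iff]
    exact (O.coe_mem_nonunits_iff (a := s')).1 hs
  have hMii : ∀ k, M (k, k) = 0 := fun k => by simp only [M]; ring
  refine ⟨κ, inferInstance, inferInstance, i, j, fun k => ρ (uO k), fun k => ρ (wO k),
    ρ g0', ρ g1', ρ g2', ?_, ?_, ?_, ?_, ?_⟩
  · have h1 : uO i = 1 := Subtype.ext (div_self hM0)
    simp only [h1, map_one]
  · have h1 : uO j = 0 := Subtype.ext (by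
      change M (j, j) / M (i, j) = 0
      rw [hMii, zero_div])
    simp only [h1, map_zero]
  · have h1 : wO i = 0 := Subtype.ext (by
      change M (i, i) / M (i, j) = 0
      rw [hMii, zero_div])
    simp only [h1, map_zero]
  · have h1 : wO j = 1 := Subtype.ext (div_self hM0)
    simp only [h1, map_one]
  · intro x y
    have h1 := congrArg ρ (hE (φ' x) (φ' y))
    rw [← eval₂_id, eval₂_comp_left, RingHom.comp_id, eval₂_add, eval₂_mul, eval₂_map,
      eval₂_map, eval₂_C, hs0, zero_mul, add_zero] at h1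
    simp only [map_pow, map_add, map_mul] at h1
    rw [← eval₂_id, eval₂_map, RingHom.id_comp]
    refine Eq.trans ?_ h1
    congr 1

/-- descent of the line to the algebraically closed field -/
theorem descend_square {K κ : Type} [Field K] [IsAlgClosed K] [Field κ] [Algebra K κ]
    (G : MvPolynomial (Fin 3) K) (i j : Fin 3) (u' w' : Fin 3 → κ) (f0 f1 f2 : κ)
    (h1 : u' i = 1) (h2 : u' j = 0)
    (h3 : w' i = 0) (h4 : w' j = 1)
    (h : ∀ x y : K, eval (fun k => algebraMap K κ x * u' k + algebraMap K κ y * w' k)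
        (map (algebraMap K κ) G) = (f0 * algebraMap K κ x ^ 2 +
          f1 * algebraMap K κ x * algebraMap K κ y + f2 * algebraMap K κ y ^ 2) ^ 2) :
    ∃ (u w : Fin 3 → K) (e0 e1 e2 : K), u i = 1 ∧ u j = 0 ∧ w i = 0 ∧ w j = 1 ∧
      ∀ x y : K, eval (fun k => x * u k + y * w k) G =
        (e0 * x ^ 2 + e1 * x * y + e2 * y ^ 2) ^ 2 := by
  let B : Subalgebra K κ := Algebra.adjoin K ((Set.range u' ∪ Set.range w') ∪ {f0, f1, f2})
  have hB : Algebra.FiniteType K B := by
    rw [← Subalgebra.fg_iff_finiteType]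
    refine Subalgebra.fg_def.2 ⟨_, ((Set.finite_range _).union (Set.finite_range _)).union ?_, rfl⟩
    exact Set.toFinite _
  obtain ⟨φ⟩ := Pool.Agent.Helper87.CC.Line.exists_point (K := K) (B := B)
  let uB : Fin 3 → B := fun k => ⟨u' k, Algebra.subset_adjoin (Or.inl (Or.inl ⟨k, rfl⟩))⟩
  let wB : Fin 3 → B := fun k => ⟨w' k, Algebra.subset_adjoin (Or.inl (Or.inr ⟨k, rfl⟩))⟩
  let f0B : B := ⟨f0, Algebra.subset_adjoin (Or.inr (by simp))⟩
  let f1B : B := ⟨f1, Algebra.subset_adjoin (Or.inr (by simp))⟩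
  let f2B : B := ⟨f2, Algebra.subset_adjoin (Or.inr (by simp))⟩
  refine ⟨fun k => φ (uB k), fun k => φ (wB k), φ f0B, φ f1B, φ f2B, ?_, ?_, ?_, ?_, ?_⟩
  · have : uB i = 1 := Subtype.ext h1
    simp only [this, map_one]
  · have : uB j = 0 := Subtype.ext h2
    simp only [this, map_zero]
  · have : wB i = 0 := Subtype.ext h3
    simp only [this, map_zero]
  · have : wB j = 1 := Subtype.ext h4
    simp only [this, map_one]
  · intro x y
    have h5 : aeval (fun k => algebraMap K B x * uB k + algebraMap K B y * wB k) G =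
        (f0B * algebraMap K B x ^ 2 + f1B * algebraMap K B x * algebraMap K B y +
          f2B * algebraMap K B y ^ 2) ^ 2 := by
      apply Subtype.val_injective
      have h6 : ((aeval (fun k => algebraMap K B x * uB k + algebraMap K B y * wB k) G : B) : κ) =
          eval (fun k => algebraMap K κ x * u' k + algebraMap K κ y * w' k)
            (map (algebraMap K κ) G) := by
        rw [← eval₂_id, eval₂_map, RingHom.id_comp]
        change B.val (aeval (fun k => algebraMap K B x * uB k + algebraMap K B y * wB k) G) = _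
        rw [← AlgHom.comp_apply, comp_aeval]
        rfl
      rw [h6]
      exact h x y
    have h7 := congrArg φ h5
    rw [← AlgHom.comp_apply, comp_aeval] at h7
    simp only [map_pow, map_add, map_mul, AlgHom.commutes] at h7
    have h8 : eval (fun k => x * φ (uB k) + y * φ (wB k)) G =
        aeval (fun k => algebraMap K K x * φ (uB k) + algebraMap K K y * φ (wB k)) G := by
      rw [← eval₂_id, aeval_def]
      rfl
    rw [h8, h7]
    rfl

/-- the special quartic form -/
noncomputable def F0 (K : Type) [CommRing K] : MvPolynomial (Fin 3) K :=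
  X 0 ^ 4 + X 2 * X 1 ^ 3

/-- **Bitangents of plane quartics.** -/
theorem exists_bitangent {K : Type} [Field K] [IsAlgClosed K] (h20 : (2 : K) ≠ 0)
    (G : MvPolynomial (Fin 3) K) (hG : G.IsHomogeneous 4) :
    ∃ (i j : Fin 3) (u w : Fin 3 → K) (e0 e1 e2 : K), u i = 1 ∧ u j = 0 ∧ w i = 0 ∧
      w j = 1 ∧ ∀ x y : K, eval (fun k => x * u k + y * w k) G =
        (e0 * x ^ 2 + e1 * x * y + e2 * y ^ 2) ^ 2 := by
  obtain ⟨c0, c1, c2, a, b, q0, q1, q2, q3, q4⟩ := exists_def h20 G
  let E := FractionRing (PowerSeries K)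
  let ι : PowerSeries K →+* E := algebraMap _ _
  let φ : K →+* E := algebraMap K E
  have hφ : φ = ι.comp (PowerSeries.C (R := K)) := by
    exact IsScalarTower.algebraMap_eq K (PowerSeries K) E
  let τ : E := ι PowerSeries.X
  have hτ : τ ≠ 0 := by
    intro h
    exact PowerSeries.X_ne_zero ((IsFractionRing.to_map_eq_zero_iff (K := E)).1 h)
  let s : E := (τ⁻¹) ^ 2
  let a' : E := ι a
  let b' : E := ι b
  have hco : ∀ j, ι ((bin (PowerSeries.C (R := K)) G a b).coeff j) = (bin φ G a' b').coeff j := by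
    intro j
    rw [← Polynomial.coeff_map, bin_map, ← hφ]
  have r0 := congrArg ι q0
  have r1 := congrArg ι q1
  have r2 := congrArg ι q2
  have r3 := congrArg ι q3
  have r4 := congrArg ι q4
  simp only [map_pow, map_add, map_mul, map_one, map_ofNat, hco] at r0 r1 r2 r3 r4
  change _ = 1 + τ ^ 2 * _ at r0
  change _ = τ ^ 2 * _ at r1
  change _ = τ ^ 2 * _ at r2
  change _ = a' + τ ^ 2 * _ at r3
  change _ = b' + τ ^ 2 * _ at r4
  have hsτ : s * τ ^ 2 = 1 := by
    change (τ⁻¹) ^ 2 * τ ^ 2 = 1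
    rw [← mul_pow, inv_mul_cancel₀ hτ, one_pow]
  let H : MvPolynomial (Fin 3) E := map φ G + C s * map φ (F0 K)
  have hF0 : (F0 K).IsHomogeneous 4 := by
    apply IsHomogeneous.add
    · exact (isHomogeneous_X K 0).pow 4
    · exact (isHomogeneous_X K 2).mul ((isHomogeneous_X K 1).pow 3)
  have hH : H.IsHomogeneous 4 := by
    apply IsHomogeneous.add
    · exact hG.map φ
    · exact (hF0.map φ).C_mul s
  let u : Fin 3 → E := ![1, 0, a']
  let w : Fin 3 → E := ![0, 1, b']
  have hline : ∀ y : E, eval (fun i => u i + y * w i) H =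
      (τ⁻¹ * ι c0 + τ⁻¹ * ι c1 * y + τ⁻¹ * ι c2 * y ^ 2) ^ 2 := by
    intro y
    have h1 : (fun i => u i + y * w i) = fun i => (pt a' b' i).eval y := by
      funext i
      fin_cases i
      · simp [u, w, pt]
      · simp [u, w, pt]
      · simp [u, w, pt]
        ring
    have h2 : eval (fun i => u i + y * w i) (map φ (F0 K)) =
        1 + a' * y ^ 3 + b' * y ^ 4 := by
      simp [F0, u, w]
      ring
    have h3 : (bin φ G a' b').eval y = ∑ j ∈ Finset.range 5, (bin φ G a' b').coeff j * y ^ j :=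
      Polynomial.eval_eq_sum_range'
        (Nat.lt_succ_of_le (bin_natDegree φ G 4 hG.totalDegree_le a' b')) y
    simp only [H, map_add, map_mul, eval_C]
    rw [h2]
    conv_lhs => rw [h1]
    rw [← eval_bin, h3]
    simp only [Finset.sum_range_succ, Finset.sum_range_zero]
    have hs' : (τ⁻¹) ^ 2 = s := rfl
    have h5 : (τ⁻¹ * ι c0 + τ⁻¹ * ι c1 * y + τ⁻¹ * ι c2 * y ^ 2) ^ 2 =
        s * (ι c0 + ι c1 * y + ι c2 * y ^ 2) ^ 2 := by
      rw [← hs']
      ring
    rw [h5]
    linear_combination - s * r0 - s * y * r1 - s * y ^ 2 * r2 - s * y ^ 3 * r3 -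
      s * y ^ 4 * r4 - ((bin φ G a' b').coeff 0 + (bin φ G a' b').coeff 1 * y +
        (bin φ G a' b').coeff 2 * y ^ 2 + (bin φ G a' b').coeff 3 * y ^ 3 +
        (bin φ G a' b').coeff 4 * y ^ 4) * hsτ
  have hinf : Infinite E := Infinite.of_injective φ φ.injective
  have hall := fun x y => square_all hH u w _ _ _ hline x y
  -- the valuation ring
  let A : Subring E := (Polynomial.aeval (R := K) τ⁻¹).range.toSubring
  have hsA : τ⁻¹ ∈ A := ⟨Polynomial.X, by simp⟩
  let I : Ideal A := Ideal.span {⟨τ⁻¹, hsA⟩}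
  have hI : I ≠ ⊤ := by
    rw [Ne, Ideal.eq_top_iff_one, Ideal.mem_span_singleton']
    rintro ⟨⟨a, ⟨p, hp⟩⟩, ha⟩
    have h1 : a * τ⁻¹ = 1 := congrArg Subtype.val ha
    apply Pool.Agent.Helper87.CC.Line.transcendental_inv K
    refine ⟨p * Polynomial.X - 1, ?_, ?_⟩
    · intro h2
      have h3 := congrArg (Polynomial.eval 0) h2
      simp at h3
    · rw [map_sub, map_mul, Polynomial.aeval_X, map_one]
      have h4 : Polynomial.aeval τ⁻¹ p = a := hp
      change Polynomial.aeval τ⁻¹ p * τ⁻¹ - 1 = 0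
      rw [h4, h1, sub_self]
  obtain ⟨O, hO1, hO2⟩ := Ideal.image_subset_nonunits_valuationSubring I hI
  have hτO : τ⁻¹ ∈ O.nonunits := hO2 ⟨⟨τ⁻¹, hsA⟩, Ideal.mem_span_singleton_self _, rfl⟩
  have hsO : s ∈ O.nonunits := by
    rw [ValuationSubring.mem_nonunits_iff] at hτO ⊢
    rw [map_pow]
    exact pow_lt_one' hτO two_ne_zero
  have hφO : ∀ x, φ x ∈ O := fun x => hO1 ⟨Polynomial.C x, by
    change Polynomial.aeval τ⁻¹ (Polynomial.C x) = φ x
    rw [Polynomial.aeval_C]⟩
  obtain ⟨κ, _, _, i, j, u', w', f0, f1, f2, h1, h2, h3, h4, h5⟩ :=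
    residue_square φ O hφO s hsO G (F0 K) u w ⟨0, 1, by simp [u, w]⟩ _ _ _ hall
  obtain ⟨u0, w0, k0, k1, k2, h6⟩ := descend_square G i j u' w' f0 f1 f2 h1 h2 h3 h4 h5
  exact ⟨i, j, u0, w0, k0, k1, k2, h6⟩

end Pool.Agent.Helper71.CQ
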