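import Pool.Agent.Helper71.CQ.Decomp
import Pool.Agent.Helper29.CQ.Bundle
import Pool.Agent.Helper29.CQ.Corr

/-!
# Linear changes of coordinates of double planes
-/

set_option autoImplicit false

namespace Pool.Agent.Helper71.CQ

open Pool.Agent.Helper29.CQ Pool.Agent.Helper65.CC Pool.Agent.Helper87.CC
  Pool.Agent.Helper65.CC.KFn

section Pol

open MvPolynomial

variable {K : Type} [Field K]

theorem exists_F4 {H : MvPolynomial (Fin 3) K} (hH : H.IsHomogeneous 4) :
    ∃ c : ℕ → ℕ → K, ∀ (R : Type) [CommRing R] [Algebra K R] (x : Fin 3 → R),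
      aeval x H = F4 c (x 0) (x 1) (x 2) := by
  refine ⟨fun i j => coeff (T i j (4 - i - j)) H, ?_⟩
  intro R _ _ x
  rw [hom_sum hH]
  simp [Finset.sum_range_succ, F4]
  ring

/-- a linear change of coordinates -/
theorem exists_change (c : ℕ → ℕ → K) (a b v a' b' w : K) :
    ∃ c' : ℕ → ℕ → K, ∀ (R : Type) [CommRing R] [Algebra K R] (x y z : R),
      F4 c (algebraMap K R a * x + algebraMap K R b * y + algebraMap K R v * z)
        (algebraMap K R a' * x + algebraMap K R b' * y + algebraMap K R w * z) z =
      F4 c' x y z := by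
  let L : Fin 3 → MvPolynomial (Fin 3) K :=
    ![C a * X 0 + C b * X 1 + C v * X 2, C a' * X 0 + C b' * X 1 + C w * X 2, X 2]
  have hL : ∀ i, (L i).IsHomogeneous 1 := by
    intro i
    fin_cases i
    · exact (((isHomogeneous_X K 0).C_mul a).add ((isHomogeneous_X K 1).C_mul b)).add
        ((isHomogeneous_X K 2).C_mul v)
    · exact (((isHomogeneous_X K 0).C_mul a').add ((isHomogeneous_X K 1).C_mul b')).add
        ((isHomogeneous_X K 2).C_mul w)
    · exact isHomogeneous_X K 2
  have hH : (aeval L (G4 c)).IsHomogeneous 4 := by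
    have h1 := (G4_hom c).aeval L hL
    simpa using h1
  obtain ⟨c', hc'⟩ := exists_F4 hH
  refine ⟨c', fun R _ _ x y z => ?_⟩
  have h1 := hc' R ![x, y, z]
  rw [← AlgHom.comp_apply, comp_aeval, aeval_G4] at h1
  simpa [L] using h1

end Pol

open Polynomial

variable {K : Type} [Field K] {G : ∀ (R : Type) [CommRing R] [Algebra K R], Prop}

/-- the change of coordinates of the double plane -/
noncomputable def V.iso (c c' : ℕ → ℕ → K) (a b v a' b' w : K) (hdet : a * b' - b * a' ≠ 0)
    (h : ∀ (R : Type) [CommRing R] [Algebra K R] (x y z : R),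
      F4 c (algebraMap K R a * x + algebraMap K R b * y + algebraMap K R v * z)
        (algebraMap K R a' * x + algebraMap K R b' * y + algebraMap K R w * z) z =
      F4 c' x y z) : Iso (V c) (V c') :=
  have e : ∀ (R : Type) [CommRing R] [Algebra K R],
      (algebraMap K R a * algebraMap K R b' - algebraMap K R b * algebraMap K R a') *
        algebraMap K R (a * b' - b * a')⁻¹ = 1 := fun R _ _ => by
    rw [← map_mul, ← map_mul, ← map_sub, ← map_mul, mul_inv_cancel₀ hdet, map_one]
  { hom := fun {R} _ _ x =>
      ⟨(algebraMap K R (a * b' - b * a')⁻¹ * (algebraMap K R b' * (x.1.1 - algebraMap K R v) -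
          algebraMap K R b * (x.1.2.1 - algebraMap K R w)),
        algebraMap K R (a * b' - b * a')⁻¹ * (algebraMap K R a * (x.1.2.1 - algebraMap K R w) -
          algebraMap K R a' * (x.1.1 - algebraMap K R v)), x.1.2.2), by
        have h1 : x.1.2.2 ^ 2 - F4 c x.1.1 x.1.2.1 1 = 0 := x.2
        set d := algebraMap K R (a * b' - b * a')⁻¹ with hd
        have h2 := e R
        rw [← hd] at h2
        change x.1.2.2 ^ 2 - F4 c' _ _ 1 = 0
        rw [← h]
        have h3 : algebraMap K R a * (d * (algebraMap K R b' * (x.1.1 - algebraMap K R v) -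
            algebraMap K R b * (x.1.2.1 - algebraMap K R w))) + algebraMap K R b *
            (d * (algebraMap K R a * (x.1.2.1 - algebraMap K R w) -
              algebraMap K R a' * (x.1.1 - algebraMap K R v))) + algebraMap K R v * 1 =
            x.1.1 := by
          linear_combination (x.1.1 - algebraMap K R v) * h2
        have h4 : algebraMap K R a' * (d * (algebraMap K R b' * (x.1.1 - algebraMap K R v) -
            algebraMap K R b * (x.1.2.1 - algebraMap K R w))) + algebraMap K R b' *
            (d * (algebraMap K R a * (x.1.2.1 - algebraMap K R w) -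
              algebraMap K R a' * (x.1.1 - algebraMap K R v))) + algebraMap K R w * 1 =
            x.1.2.1 := by
          linear_combination (x.1.2.1 - algebraMap K R w) * h2
        rw [h3, h4]
        exact h1⟩
    inv := fun {R} _ _ y =>
      ⟨(algebraMap K R a * y.1.1 + algebraMap K R b * y.1.2.1 + algebraMap K R v * 1,
        algebraMap K R a' * y.1.1 + algebraMap K R b' * y.1.2.1 + algebraMap K R w * 1,
        y.1.2.2), by
        have h1 : y.1.2.2 ^ 2 - F4 c' y.1.1 y.1.2.1 1 = 0 := y.2
        rw [← h] at h1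
        exact h1⟩
    inv_hom := fun {R} _ _ x => by
      have h2 := e R
      refine Subtype.ext (Prod.ext ?_ (Prod.ext ?_ rfl))
      · change algebraMap K R a * (algebraMap K R (a * b' - b * a')⁻¹ *
            (algebraMap K R b' * (x.1.1 - algebraMap K R v) -
            algebraMap K R b * (x.1.2.1 - algebraMap K R w))) + algebraMap K R b *
            (algebraMap K R (a * b' - b * a')⁻¹ * (algebraMap K R a * (x.1.2.1 - algebraMap K R w) -
              algebraMap K R a' * (x.1.1 - algebraMap K R v))) + algebraMap K R v * 1 =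
            x.1.1
        linear_combination (x.1.1 - algebraMap K R v) * h2
      · change algebraMap K R a' * (algebraMap K R (a * b' - b * a')⁻¹ *
            (algebraMap K R b' * (x.1.1 - algebraMap K R v) -
            algebraMap K R b * (x.1.2.1 - algebraMap K R w))) + algebraMap K R b' *
            (algebraMap K R (a * b' - b * a')⁻¹ * (algebraMap K R a * (x.1.2.1 - algebraMap K R w) -
              algebraMap K R a' * (x.1.1 - algebraMap K R v))) + algebraMap K R w * 1 =
            x.1.2.1
        linear_combination (x.1.2.1 - algebraMap K R w) * h2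
    hom_inv := fun {R} _ _ y => by
      have h2 := e R
      refine Subtype.ext (Prod.ext ?_ (Prod.ext ?_ rfl))
      · change algebraMap K R (a * b' - b * a')⁻¹ * (algebraMap K R b' *
          ((algebraMap K R a * y.1.1 + algebraMap K R b * y.1.2.1 + algebraMap K R v * 1) -
            algebraMap K R v) - algebraMap K R b *
          ((algebraMap K R a' * y.1.1 + algebraMap K R b' * y.1.2.1 + algebraMap K R w * 1) -
            algebraMap K R w)) = y.1.1
        linear_combination y.1.1 * h2
      · change algebraMap K R (a * b' - b * a')⁻¹ * (algebraMap K R a *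
          ((algebraMap K R a' * y.1.1 + algebraMap K R b' * y.1.2.1 + algebraMap K R w * 1) -
            algebraMap K R w) - algebraMap K R a' *
          ((algebraMap K R a * y.1.1 + algebraMap K R b * y.1.2.1 + algebraMap K R v * 1) -
            algebraMap K R v)) = y.1.2.1
        linear_combination y.1.2.1 * h2
    nat := fun {R S} _ _ _ _ f x => by
      refine Subtype.ext (Prod.ext ?_ (Prod.ext ?_ rfl))
      · change f (algebraMap K R (a * b' - b * a')⁻¹ *
            (algebraMap K R b' * (x.1.1 - algebraMap K R v) -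
            algebraMap K R b * (x.1.2.1 - algebraMap K R w))) =
          algebraMap K S (a * b' - b * a')⁻¹ *
            (algebraMap K S b' * (f x.1.1 - algebraMap K S v) -
            algebraMap K S b * (f x.1.2.1 - algebraMap K S w))
        simp only [map_mul, map_sub, AlgHom.commutes]
      · change f (algebraMap K R (a * b' - b * a')⁻¹ *
            (algebraMap K R a * (x.1.2.1 - algebraMap K R w) -
              algebraMap K R a' * (x.1.1 - algebraMap K R v))) =
          algebraMap K S (a * b' - b * a')⁻¹ *
            (algebraMap K S a * (f x.1.2.1 - algebraMap K S w) -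
              algebraMap K S a' * (f x.1.1 - algebraMap K S v))
        simp only [map_mul, map_sub, AlgHom.commutes] }

/-- the leading form -/
theorem bin4_lead (c : ℕ → ℕ → K) {R : Type} [CommRing R] [Algebra K R] (x y : R) :
    bin4 (lead c) x y = F4 c x y 0 := by
  simp [bin4, F4, lead]
  ring

theorem lead_change [IsAlgClosed K] (hG : GOps K G) (c c' : ℕ → ℕ → K) (a b v a' b' w : K)
    (hdet : a * b' - b * a' ≠ 0)
    (h : ∀ (R : Type) [CommRing R] [Algebra K R] (x y z : R),
      F4 c (algebraMap K R a * x + algebraMap K R b * y + algebraMap K R v * z)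
        (algebraMap K R a' * x + algebraMap K R b' * y + algebraMap K R w * z) z =
      F4 c' x y z) (hinf : (BC (bin4 (lead c) (X : K[X]) 1)).Mem G) :
    (BC (bin4 (lead c') (X : K[X]) 1)).Mem G := by
  have h1 := BC.moebius hG (lead c) a b a' b' hdet hinf
  have h2 : bin4 (lead c') (X : K[X]) 1 = bin4 (lead c) (C a * X + C b) (C a' * X + C b') := by
    rw [bin4_lead, bin4_lead, ← h]
    simp only [algebraMap_eq, mul_one, mul_zero, add_zero]
  rw [h2]
  exact h1

/-- a polynomial which is quadratic in y gives a conic bundle -/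
theorem V.conic [IsAlgClosed K] (h2 : (2 : K) ≠ 0) (hG : GOps K G) (c : ℕ → ℕ → K)
    (h04 : c 0 4 = 0) (h13 : c 1 3 = 0) (h03 : c 0 3 = 0) (hcyl : ¬ Cyl' c) : (V c).Mem G := by
  let A : K[X] := C (c 0 2) + C (c 1 2) * X + C (c 2 2) * X ^ 2
  let B : K[X] := C (c 0 1) + C (c 1 1) * X + C (c 2 1) * X ^ 2 + C (c 3 1) * X ^ 3
  let E : K[X] := C (c 0 0) + C (c 1 0) * X + C (c 2 0) * X ^ 2 + C (c 3 0) * X ^ 3 +
    C (c 4 0) * X ^ 4
  let q : Fin 6 → K[X] := ![A, 0, -1, B, 0, E]
  have key : ∀ (R : Type) [CommRing R] [Algebra K R] (x y : R),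
      F4 c x y 1 = aeval x A * y ^ 2 + aeval x B * y + aeval x E := by
    intro R _ _ x y
    simp only [A, B, E, map_add, map_mul, map_pow, aeval_C, aeval_X, F4, h04, h13, h03, map_zero]
    ring
  have hcon : ∀ (R : Type) [CommRing R] [Algebra K R] (x y u : R),
      con (aeval x (q 0)) (aeval x (q 1)) (aeval x (q 2)) (aeval x (q 3)) (aeval x (q 4))
        (aeval x (q 5)) y u = - (u ^ 2 - F4 c x y 1) := by
    intro R _ _ x y u
    rw [key]
    change con (aeval x A) (aeval x (0 : K[X])) (aeval x (-1 : K[X])) (aeval x B)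
      (aeval x (0 : K[X])) (aeval x E) y u = _
    simp only [con, map_zero, map_neg, map_one]
    ring
  let e : Iso (V c) (CBf q) :=
    { hom := fun {R} _ _ x => ⟨(x.1.1, x.1.2.1, x.1.2.2), by
        have h1 : x.1.2.2 ^ 2 - F4 c x.1.1 x.1.2.1 1 = 0 := x.2
        have h3 := hcon R x.1.1 x.1.2.1 x.1.2.2
        rw [h1, neg_zero] at h3
        exact h3⟩
      inv := fun {R} _ _ y => ⟨(y.1.1, y.1.2.1, y.1.2.2), by
        have h3 := hcon R y.1.1 y.1.2.1 y.1.2.2
        have h4 : con (aeval y.1.1 (q 0)) (aeval y.1.1 (q 1)) (aeval y.1.1 (q 2))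
          (aeval y.1.1 (q 3)) (aeval y.1.1 (q 4)) (aeval y.1.1 (q 5)) y.1.2.1 y.1.2.2 = 0 := y.2
        rw [h4] at h3
        exact neg_eq_zero.1 h3.symm⟩
      inv_hom := fun _ => rfl
      hom_inv := fun _ => rfl
      nat := fun _ _ => rfl }
  refine Mem.of_iso e ?_
  by_cases hA : A = 0
  · by_cases hB : B = 0
    · exfalso
      apply hcyl
      refine ⟨0, 1, Or.inr one_ne_zero, ?_⟩
      intro R _ _ x y t
      rw [key, key, hA, hB]
      simp
    · refine mem_fibres hG.toKOps _ _ (CBf.t q) B hB rfl (CBf.fib hG q) ?_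
      -- over B ≠ 0 the coordinate y is a function of x and u
      let F : KFn K := (A2 K).opn ⟨fun x => aeval x.1 B, fun f x => (aeval_algHom_apply f x.1 B).symm⟩
      have hF : F.Mem G := by
        refine mem_opn hG.toKOps _ (mem_A2 hG) ?_
        let t : Coord (A2 K) := ⟨fun x => x.1, fun _ _ => rfl⟩
        refine mem_cls_poly hG.toKOps (A2 K) t B hB ?_
        intro a
        refine Mem.of_iso (F' := A1 K) ?_ (mem_A1 hG)
        exact
          { hom := fun {R} _ _ x => x.1.2
            inv := fun {R} _ _ y => ⟨(algebraMap K R a, y), sub_self _⟩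
            inv_hom := fun {R} _ _ x => by
              have h1 : x.1.1 - algebraMap K R a = 0 := x.2
              exact Subtype.ext (Prod.ext (sub_eq_zero.1 h1).symm rfl)
            hom_inv := fun _ => rfl
            nat := fun _ _ => rfl }
      refine Mem.of_iso (F' := F) ?_ hF
      have hcon' : ∀ (R : Type) [CommRing R] [Algebra K R] (x y u : R),
          con (aeval x (q 0)) (aeval x (q 1)) (aeval x (q 2)) (aeval x (q 3)) (aeval x (q 4))
            (aeval x (q 5)) y u = - (u ^ 2 - (aeval x B * y + aeval x E)) := by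
        intro R _ _ x y u
        rw [hcon, key, hA]
        simp
      exact
        { hom := fun {R} _ _ x => ⟨(x.1.1.1, x.1.1.2.2), x.2⟩
          inv := fun {R} _ _ y => ⟨⟨(y.1.1, Ring.inverse (aeval y.1.1 B) *
              (y.1.2 ^ 2 - aeval y.1.1 E), y.1.2), by
              have h1 := mul_inv' (a := aeval y.1.1 B) y.2
              refine (hcon' R _ _ _).trans ?_
              linear_combination (y.1.2 ^ 2 - aeval y.1.1 E) * h1⟩, y.2⟩
          inv_hom := fun {R} _ _ x => by
            have h0 : IsUnit (aeval x.1.1.1 B) := x.2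
            have h1 := mul_inv' h0
            have h3 := (hcon' R x.1.1.1 x.1.1.2.1 x.1.1.2.2).symm.trans x.1.2
            refine Subtype.ext (Subtype.ext (Prod.ext rfl (Prod.ext ?_ rfl)))
            change Ring.inverse (aeval x.1.1.1 B) * (x.1.1.2.2 ^ 2 - aeval x.1.1.1 E) = x.1.1.2.1
            linear_combination (-Ring.inverse (aeval x.1.1.1 B)) * h3 + x.1.1.2.1 * h1
          hom_inv := fun _ => rfl
          nat := fun _ _ => rfl }
  · refine CBf.mem hG h2 q ?_ ?_
    · change (0 : K[X]) ^ 2 - 4 * A * (-1) ≠ 0
      have h3 : (0 : K[X]) ^ 2 - 4 * A * (-1) = C (4 : K) * A := by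
        rw [show (C (4 : K) : K[X]) = 4 from map_ofNat C 4]; ring
      rw [h3]
      refine mul_ne_zero ?_ hA
      rw [Ne, C_eq_zero]
      have h4 : (4 : K) = 2 * 2 := by norm_num
      rw [h4]
      exact mul_ne_zero h2 h2
    · change (BC ((0 : K[X]) ^ 2 - 4 * A * (-1))).Mem G
      apply BC.deg_two hG
      have h3 : (0 : K[X]) ^ 2 - 4 * A * (-1) = C (4 : K) * A := by
        rw [show (C (4 : K) : K[X]) = 4 from map_ofNat C 4]; ring
      rw [h3]
      refine (natDegree_C_mul_le _ _).trans ?_
      simp only [A]
      compute_degree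

end Pool.Agent.Helper71.CQ
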