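import Mathlib

/-!
# Specialisation of tritangent sections: the local analysis
-/

set_option autoImplicit false

namespace Pool.Agent.Helper71.CQ

open Polynomial

section Sq

variable {E : Type} [Field E]

theorem mem_of_sq (O : ValuationSubring E) {a : E} (ha : a ^ 2 ∈ O) : a ∈ O := by
  rw [← O.valuation_le_one_iff] at ha ⊢
  rw [map_pow] at ha
  exact (pow_le_one_iff two_ne_zero).1 ha

/-- polynomials whose square is integral are integral -/
theorem sq_lifts (O : ValuationSubring E) (p : E[X]) (P : O[X])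
    (h : P.map O.subtype = p ^ 2) : ∃ p' : O[X], p'.map O.subtype = p := by
  classical
  by_contra hno
  have hne : ∃ n, p.coeff n ∉ O := by
    by_contra hall
    push_neg at hall
    apply hno
    have h1 : p ∈ lifts O.subtype := by
      rw [lifts_iff_coeff_lifts]
      intro n
      exact ⟨⟨p.coeff n, hall n⟩, rfl⟩
    exact (mem_lifts _).1 h1
  obtain ⟨n, hn⟩ := hne
  have hn0 : p.coeff n ≠ 0 := fun h0 => hn (by rw [h0]; exact O.zero_mem)
  obtain ⟨j, hj, hmax⟩ := Finset.exists_max_image p.support (fun j => O.valuation (p.coeff j))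
    ⟨n, mem_support_iff.2 hn0⟩
  have hjO : p.coeff j ∉ O := by
    intro hj'
    apply hn
    rw [← O.valuation_le_one_iff] at hj' ⊢
    exact (hmax n (mem_support_iff.2 hn0)).trans hj'
  have hj0 : p.coeff j ≠ 0 := mem_support_iff.1 hj
  let u : E := (p.coeff j)⁻¹
  have hu : u ∈ O := by
    rcases O.mem_or_inv_mem (p.coeff j) with h1 | h1
    · exact absurd h1 hjO
    · exact h1
  have hdiv : ∀ i, u * p.coeff i ∈ O := by
    intro i
    by_cases hi : p.coeff i = 0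
    · rw [hi, mul_zero]; exact O.zero_mem
    · obtain ⟨a, ha⟩ := (O.valuation_le_iff (p.coeff i) (p.coeff j)).1
        (hmax i (mem_support_iff.2 hi))
      have h1 : u * p.coeff i = a := by
        rw [← ha]
        simp only [u]
        field_simp
      rw [h1]
      exact a.2
  obtain ⟨p', hp'⟩ : ∃ p' : O[X], p'.map O.subtype = C u * p := by
    have h1 : C u * p ∈ lifts O.subtype := by
      rw [lifts_iff_coeff_lifts]
      intro n
      exact ⟨⟨u * p.coeff n, hdiv n⟩, by rw [coeff_C_mul]; rfl⟩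
    exact (mem_lifts _).1 h1
  let u' : O := ⟨u, hu⟩
  have h1 : p' ^ 2 = C u' ^ 2 * P := by
    apply Polynomial.map_injective O.subtype O.subtype_injective
    rw [Polynomial.map_pow, hp', Polynomial.map_mul, Polynomial.map_pow, map_C, h]
    change _ = C u ^ 2 * p ^ 2
    ring
  let κ := IsLocalRing.ResidueField O
  let π : O →+* κ := IsLocalRing.residue O
  have hu0 : π u' = 0 := by
    rw [IsLocalRing.residue_eq_zero_iff, IsLocalRing.mem_maximalIdeal, mem_nonunits_iff]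
    intro hunit
    apply hjO
    obtain ⟨w, hw⟩ := hunit.exists_right_inv
    have h2 : (p.coeff j) = (w : E) := by
      have h3 := congrArg (Subtype.val : O → E) hw
      change u * (w : E) = 1 at h3
      simp only [u] at h3
      field_simp at h3
      exact h3.symm
    rw [h2]
    exact w.2
  have h2 : (p'.map π) ^ 2 = 0 := by
    rw [← Polynomial.map_pow, h1, Polynomial.map_mul, Polynomial.map_pow, map_C, hu0]
    simp
  have h3 : p'.map π = 0 := pow_eq_zero_iff two_ne_zero |>.1 h2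
  have h4 : p'.coeff j = 1 := by
    apply O.subtype_injective
    have h5 := congrArg (fun f => coeff f j) hp'
    simp only [coeff_map, coeff_C_mul] at h5
    rw [h5, map_one]
    exact inv_mul_cancel₀ hj0
  have h5 := congrArg (fun f => coeff f j) h3
  simp only [coeff_map, h4, map_one, coeff_zero] at h5
  exact one_ne_zero h5

end Sq

section Core

variable {E : Type} [Field E] [IsAlgClosed E]

theorem seven {R : Type} [CommRing R] (l0 l1 l2 l3 l4 l5 l6 r0 r1 r2 r3 r4 r5 r6 : R)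
    (h : (C l0 + C l1 * X + C l2 * X ^ 2 + C l3 * X ^ 3 + C l4 * X ^ 4 + C l5 * X ^ 5 +
      C l6 * X ^ 6 : R[X]) = C r0 + C r1 * X + C r2 * X ^ 2 + C r3 * X ^ 3 + C r4 * X ^ 4 +
      C r5 * X ^ 5 + C r6 * X ^ 6) :
    l0 = r0 ∧ l1 = r1 ∧ l2 = r2 ∧ l3 = r3 ∧ l4 = r4 ∧ l5 = r5 ∧ l6 = r6 := by
  have key : ∀ n, coeff (C l0 + C l1 * X + C l2 * X ^ 2 + C l3 * X ^ 3 + C l4 * X ^ 4 +
      C l5 * X ^ 5 + C l6 * X ^ 6 : R[X]) n = coeff (C r0 + C r1 * X + C r2 * X ^ 2 +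
      C r3 * X ^ 3 + C r4 * X ^ 4 + C r5 * X ^ 5 + C r6 * X ^ 6) n := fun n => by rw [h]
  simp only [coeff_add, coeff_C_mul, coeff_X_pow, coeff_C, coeff_X] at key
  refine ⟨?_, ?_, ?_, ?_, ?_, ?_, ?_⟩
  · simpa using key 0
  · simpa using key 1
  · simpa using key 2
  · simpa using key 3
  · simpa using key 4
  · simpa using key 5
  · simpa using key 6

theorem explicit {R : Type} [CommRing R] (p : R[X]) (n : ℕ) (h : p.natDegree ≤ n) :
    p = ∑ i ∈ Finset.range (n + 1), C (p.coeff i) * X ^ i :=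
  p.as_sum_range_C_mul_X_pow' (Nat.lt_succ_of_le h)

/-- the good case of the local analysis -/
theorem caseA (O : ValuationSubring E) (h2 : IsUnit (2 : O)) (α : O) (hα : IsUnit α)
    (A2 A4 A6 : O[X]) (d2 : A2.natDegree ≤ 2) (d4 : A4.natDegree ≤ 4) (d6 : A6.natDegree ≤ 6)
    (mu k : O) (hmu0 : mu ≠ 0) (hmu : ¬ IsUnit mu) (r : E[X]) (hr : r.natDegree ≤ 3)
    (h : C (α : E) * (C (((mu : E) ^ 2)⁻¹) * (X ^ 2 - C ((mu : E) ^ 2 * k))) ^ 3 +
      A2.map O.subtype * (C (((mu : E) ^ 2)⁻¹) * (X ^ 2 - C ((mu : E) ^ 2 * k))) ^ 2 +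
      A4.map O.subtype * (C (((mu : E) ^ 2)⁻¹) * (X ^ 2 - C ((mu : E) ^ 2 * k))) +
      A6.map O.subtype = r ^ 2) :
    ∃ y : IsLocalRing.ResidueField O,
      IsLocalRing.residue O α * y ^ 3 + IsLocalRing.residue O (A2.coeff 0) * y ^ 2 +
        IsLocalRing.residue O (A4.coeff 0) * y + IsLocalRing.residue O (A6.coeff 0) = 0 ∧
      3 * IsLocalRing.residue O α * y ^ 2 + 2 * IsLocalRing.residue O (A2.coeff 0) * y +
        IsLocalRing.residue O (A4.coeff 0) = 0 ∧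
      IsLocalRing.residue O (A2.coeff 1) * y ^ 2 + IsLocalRing.residue O (A4.coeff 1) * y +
        IsLocalRing.residue O (A6.coeff 1) = 0 := by
  classical
  let ι := O.subtype
  have hmuE : (mu : E) ≠ 0 := fun h0 => hmu0 (Subtype.ext h0)
  -- substitution X = mu W
  have h1 := congrArg (fun p => p.comp (C (mu : E) * X)) h
  simp only [add_comp, mul_comp, pow_comp, C_comp, sub_comp, X_comp] at h1
  have hy : C (((mu : E) ^ 2)⁻¹) * ((C (mu : E) * X) ^ 2 - C ((mu : E) ^ 2 * k)) =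
      X ^ 2 - C (k : E) := by
    have h3 : (C (mu : E) * X) ^ 2 - C ((mu : E) ^ 2 * k) =
        C ((mu : E) ^ 2) * (X ^ 2 - C (k : E)) := by
      rw [C_mul, C_pow]; ring
    rw [h3, ← mul_assoc, ← C_mul, inv_mul_cancel₀ (pow_ne_zero 2 hmuE), C_1, one_mul]
  rw [hy, explicit A2 2 d2, explicit A4 4 d4, explicit A6 6 d6, explicit r 3 hr] at h1
  simp only [Finset.sum_range_succ, Finset.sum_range_zero, zero_add, pow_zero, mul_one, pow_one,
    Polynomial.map_add, Polynomial.map_mul, Polynomial.map_pow, map_C, map_X, add_comp, mul_comp,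
    C_comp, X_comp, pow_comp] at h1
  -- names
  obtain ⟨t20, ht20⟩ : ∃ t, t = A2.coeff 0 := ⟨_, rfl⟩
  obtain ⟨t21, ht21⟩ : ∃ t, t = A2.coeff 1 := ⟨_, rfl⟩
  obtain ⟨t22, ht22⟩ : ∃ t, t = A2.coeff 2 := ⟨_, rfl⟩
  obtain ⟨t40, ht40⟩ : ∃ t, t = A4.coeff 0 := ⟨_, rfl⟩
  obtain ⟨t41, ht41⟩ : ∃ t, t = A4.coeff 1 := ⟨_, rfl⟩
  obtain ⟨t42, ht42⟩ : ∃ t, t = A4.coeff 2 := ⟨_, rfl⟩
  obtain ⟨t43, ht43⟩ : ∃ t, t = A4.coeff 3 := ⟨_, rfl⟩
  obtain ⟨t44, ht44⟩ : ∃ t, t = A4.coeff 4 := ⟨_, rfl⟩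
  obtain ⟨t60, ht60⟩ : ∃ t, t = A6.coeff 0 := ⟨_, rfl⟩
  obtain ⟨t61, ht61⟩ : ∃ t, t = A6.coeff 1 := ⟨_, rfl⟩
  obtain ⟨t62, ht62⟩ : ∃ t, t = A6.coeff 2 := ⟨_, rfl⟩
  obtain ⟨t63, ht63⟩ : ∃ t, t = A6.coeff 3 := ⟨_, rfl⟩
  obtain ⟨t64, ht64⟩ : ∃ t, t = A6.coeff 4 := ⟨_, rfl⟩
  obtain ⟨t65, ht65⟩ : ∃ t, t = A6.coeff 5 := ⟨_, rfl⟩
  obtain ⟨t66, ht66⟩ : ∃ t, t = A6.coeff 6 := ⟨_, rfl⟩
  rw [← ht20, ← ht21, ← ht22, ← ht40, ← ht41, ← ht42, ← ht43, ← ht44, ← ht60, ← ht61, ← ht62,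
    ← ht63, ← ht64, ← ht65, ← ht66] at h1
  rw [← ht20, ← ht21, ← ht40, ← ht41, ← ht60, ← ht61]
  clear ht20 ht21 ht22 ht40 ht41 ht42 ht43 ht44 ht60 ht61 ht62 ht63 ht64 ht65 ht66
  change C (α : E) * (X ^ 2 - C (k : E)) ^ 3 +
    (C (t20 : E) + C (t21 : E) * (C (mu : E) * X) + C (t22 : E) * (C (mu : E) * X) ^ 2) *
      (X ^ 2 - C (k : E)) ^ 2 +
    (C (t40 : E) + C (t41 : E) * (C (mu : E) * X) + C (t42 : E) * (C (mu : E) * X) ^ 2 +
      C (t43 : E) * (C (mu : E) * X) ^ 3 + C (t44 : E) * (C (mu : E) * X) ^ 4) *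
      (X ^ 2 - C (k : E)) +
    (C (t60 : E) + C (t61 : E) * (C (mu : E) * X) + C (t62 : E) * (C (mu : E) * X) ^ 2 +
      C (t63 : E) * (C (mu : E) * X) ^ 3 + C (t64 : E) * (C (mu : E) * X) ^ 4 +
      C (t65 : E) * (C (mu : E) * X) ^ 5 + C (t66 : E) * (C (mu : E) * X) ^ 6) =
    (C (r.coeff 0) + C (r.coeff 1) * (C (mu : E) * X) + C (r.coeff 2) * (C (mu : E) * X) ^ 2 +
      C (r.coeff 3) * (C (mu : E) * X) ^ 3) ^ 2 at h1
  obtain ⟨s0, hs0⟩ : ∃ t, t = r.coeff 0 := ⟨_, rfl⟩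
  obtain ⟨s1, hs1⟩ : ∃ t, t = r.coeff 1 * mu := ⟨_, rfl⟩
  obtain ⟨s2, hs2⟩ : ∃ t, t = r.coeff 2 * mu ^ 2 := ⟨_, rfl⟩
  obtain ⟨s3, hs3⟩ : ∃ t, t = r.coeff 3 * mu ^ 3 := ⟨_, rfl⟩
  obtain ⟨e0, e1, e2, e3, e4, e5, e6⟩ := seven
    (- (α : E) * k ^ 3 + k ^ 2 * t20 - k * t40 + t60)
    ((k ^ 2 * t21 - k * t41 + t61) * mu)
    (3 * (α : E) * k ^ 2 - 2 * k * t20 + t40 + (k ^ 2 * t22 - k * t42 + t62) * mu ^ 2)
    ((t41 - 2 * k * t21) * mu + (t63 - k * t43) * mu ^ 3)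
    (t20 - 3 * (α : E) * k + (t42 - 2 * k * t22) * mu ^ 2 + (t64 - k * t44) * mu ^ 4)
    (t21 * mu + t43 * mu ^ 3 + t65 * mu ^ 5)
    ((α : E) + t22 * mu ^ 2 + t44 * mu ^ 4 + t66 * mu ^ 6)
    (s0 ^ 2) (2 * s0 * s1) (s1 ^ 2 + 2 * s0 * s2) (2 * s0 * s3 + 2 * s1 * s2)
    (s2 ^ 2 + 2 * s1 * s3) (2 * s2 * s3) (s3 ^ 2) (by
      rw [hs0, hs1, hs2, hs3]
      simp only [C_add, C_sub, C_mul, C_pow, C_neg, map_ofNat]
      linear_combination h1)
  clear h1 hy h
  -- integrality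
  let π : O →+* IsLocalRing.ResidueField O := IsLocalRing.residue O
  have hπmu : π mu = 0 := by
    rw [IsLocalRing.residue_eq_zero_iff, IsLocalRing.mem_maximalIdeal, mem_nonunits_iff]
    exact hmu
  have hs3O : s3 ∈ O := by
    apply mem_of_sq
    rw [← e6]
    exact (α + t22 * mu ^ 2 + t44 * mu ^ 4 + t66 * mu ^ 6 : O).2
  let S3 : O := ⟨s3, hs3O⟩
  have E6 : α + t22 * mu ^ 2 + t44 * mu ^ 4 + t66 * mu ^ 6 = S3 ^ 2 := Subtype.ext e6
  have hS3 : IsUnit S3 := by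
    rw [← IsLocalRing.residue_ne_zero_iff_isUnit]
    intro h0
    have h1 := congrArg π E6
    simp only [map_add, map_mul, map_pow, hπmu] at h1
    change _ = (IsLocalRing.residue O S3) ^ 2 at h1
    rw [h0] at h1
    have h3 : π α = 0 := by
      linear_combination h1
    exact (IsLocalRing.residue_ne_zero_iff_isUnit α).2 hα h3
  obtain ⟨i3, hi3⟩ := (h2.mul hS3).exists_right_inv
  have hi3E : 2 * s3 * (i3 : E) = 1 := congrArg (Subtype.val : O → E) hi3
  let S2 : O := (t21 + t43 * mu ^ 2 + t65 * mu ^ 4) * i3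
  have hS2 : s2 = mu * S2 := by
    have h1 : ((S2 : O) : E) = (t21 + t43 * mu ^ 2 + t65 * mu ^ 4) * i3 := rfl
    rw [h1]
    linear_combination - s2 * hi3E - (i3 : E) * e5
  let S1 : O := (t20 - 3 * α * k + (t42 - 2 * k * t22) * mu ^ 2 + (t64 - k * t44) * mu ^ 4 -
    mu ^ 2 * S2 ^ 2) * i3
  have hS1 : s1 = S1 := by
    have h1 : ((S1 : O) : E) = (t20 - 3 * α * k + (t42 - 2 * k * t22) * mu ^ 2 +
      (t64 - k * t44) * mu ^ 4 - mu ^ 2 * S2 ^ 2) * i3 := rfl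
    rw [h1]
    rw [hS2] at e4
    linear_combination - s1 * hi3E - (i3 : E) * e4
  let S0 : O := ((t41 - 2 * k * t21) + (t63 - k * t43) * mu ^ 2 - 2 * S1 * S2) * i3
  have hS0 : s0 = mu * S0 := by
    have h1 : ((S0 : O) : E) = ((t41 - 2 * k * t21) + (t63 - k * t43) * mu ^ 2 -
      2 * S1 * S2) * i3 := rfl
    rw [h1]
    rw [hS2, hS1] at e3
    linear_combination - s0 * hi3E - (i3 : E) * e3
  have E5 : t21 + t43 * mu ^ 2 + t65 * mu ^ 4 = 2 * S2 * S3 := by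
    simp only [S2]
    linear_combination - (t21 + t43 * mu ^ 2 + t65 * mu ^ 4) * hi3
  have E4 : t20 - 3 * α * k + (t42 - 2 * k * t22) * mu ^ 2 + (t64 - k * t44) * mu ^ 4 =
      mu ^ 2 * S2 ^ 2 + 2 * S1 * S3 := by
    apply Subtype.ext
    rw [hS2, hS1] at e4
    change t20 - 3 * (α : E) * k + (t42 - 2 * k * t22) * mu ^ 2 + (t64 - k * t44) * mu ^ 4 =
      (mu : E) ^ 2 * S2 ^ 2 + 2 * S1 * s3
    linear_combination e4
  have E3 : (t41 - 2 * k * t21) + (t63 - k * t43) * mu ^ 2 = 2 * S0 * S3 + 2 * S1 * S2 := by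
    simp only [S0]
    linear_combination - ((t41 - 2 * k * t21) + (t63 - k * t43) * mu ^ 2 - 2 * S1 * S2) * hi3
  have E2 : 3 * α * k ^ 2 - 2 * k * t20 + t40 + (k ^ 2 * t22 - k * t42 + t62) * mu ^ 2 =
      S1 ^ 2 + 2 * mu ^ 2 * S0 * S2 := by
    apply Subtype.ext
    rw [hS2, hS1, hS0] at e2
    change 3 * (α : E) * k ^ 2 - 2 * k * t20 + t40 + (k ^ 2 * t22 - k * t42 + t62) * mu ^ 2 =
      (S1 : E) ^ 2 + 2 * mu ^ 2 * S0 * S2
    linear_combination e2
  have E1 : k ^ 2 * t21 - k * t41 + t61 = 2 * S0 * S1 := by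
    have h1 : mu * (k ^ 2 * t21 - k * t41 + t61) = mu * (2 * S0 * S1) := by
      apply Subtype.ext
      rw [hS1, hS0] at e1
      change (mu : E) * (k ^ 2 * t21 - k * t41 + t61) = mu * (2 * S0 * S1)
      linear_combination e1
    exact mul_left_cancel₀ hmu0 h1
  have E0 : - α * k ^ 3 + k ^ 2 * t20 - k * t40 + t60 = mu ^ 2 * S0 ^ 2 := by
    apply Subtype.ext
    rw [hS0] at e0
    change - (α : E) * k ^ 3 + k ^ 2 * t20 - k * t40 + t60 = (mu : E) ^ 2 * S0 ^ 2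
    linear_combination e0
  -- reduction
  have f6 := congrArg π E6
  have f5 := congrArg π E5
  have f4 := congrArg π E4
  have f3 := congrArg π E3
  have f2 := congrArg π E2
  have f1 := congrArg π E1
  have f0 := congrArg π E0
  simp only [map_add, map_mul, map_pow, map_sub, map_neg, map_ofNat, hπmu] at f0 f1 f2 f3 f4 f5 f6
  have hp3 : π S3 ≠ 0 := (IsLocalRing.residue_ne_zero_iff_isUnit S3).2 hS3
  obtain ⟨w, hw⟩ : ∃ w, π S1 = w * π S3 := ⟨π S1 / π S3, by field_simp⟩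
  refine ⟨- π k - w, ?_, ?_, ?_⟩
  · change π α * (- π k - w) ^ 3 + π t20 * (- π k - w) ^ 2 + π t40 * (- π k - w) + π t60 = 0
    have g4 : π t20 - 3 * π α * π k = 2 * π S1 * π S3 := by linear_combination f4
    have g2 : 3 * π α * π k ^ 2 - 2 * π k * π t20 + π t40 = π S1 ^ 2 := by linear_combination f2
    have g0 : - π α * π k ^ 3 + π k ^ 2 * π t20 - π k * π t40 + π t60 = 0 := by
      linear_combination f0
    have g6 : π α = π S3 ^ 2 := by linear_combination f6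
    rw [hw] at g4 g2
    linear_combination (-w) ^ 3 * g6 + (-w) ^ 2 * g4 + (-w) * g2 + g0
  · change 3 * π α * (- π k - w) ^ 2 + 2 * π t20 * (- π k - w) + π t40 = 0
    have g4 : π t20 - 3 * π α * π k = 2 * π S1 * π S3 := by linear_combination f4
    have g2 : 3 * π α * π k ^ 2 - 2 * π k * π t20 + π t40 = π S1 ^ 2 := by linear_combination f2
    have g6 : π α = π S3 ^ 2 := by linear_combination f6
    rw [hw] at g4 g2
    linear_combination 3 * (-w) ^ 2 * g6 + 2 * (-w) * g4 + g2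
  · change π t21 * (- π k - w) ^ 2 + π t41 * (- π k - w) + π t61 = 0
    have g5 : π t21 = 2 * π S2 * π S3 := by linear_combination f5
    have g3 : π t41 - 2 * π k * π t21 = 2 * π S0 * π S3 + 2 * π S1 * π S2 := by
      linear_combination f3
    have g1 : π k ^ 2 * π t21 - π k * π t41 + π t61 = 2 * π S0 * π S1 := by linear_combination f1
    rw [hw] at g3 g1
    linear_combination (-w) ^ 2 * g5 + (-w) * g3 + g1

/-- the bad case of the local analysis does not occur -/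
theorem caseB (O : ValuationSubring E) (h2 : IsUnit (2 : O)) (α : O) (hα : IsUnit α)
    (A2 A4 A6 : O[X]) (th nu : O) (hth : th ≠ 0) (hnu0 : nu ≠ 0) (hnu : ¬ IsUnit nu) (r : E[X])
    (h : C (α : E) * (C (((th : E) ^ 2 * nu)⁻¹) * (X ^ 2 - C ((th : E) ^ 2))) ^ 3 +
      A2.map O.subtype * (C (((th : E) ^ 2 * nu)⁻¹) * (X ^ 2 - C ((th : E) ^ 2))) ^ 2 +
      A4.map O.subtype * (C (((th : E) ^ 2 * nu)⁻¹) * (X ^ 2 - C ((th : E) ^ 2))) +
      A6.map O.subtype = r ^ 2) : False := by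
  classical
  have hthE : (th : E) ≠ 0 := fun h0 => hth (Subtype.ext h0)
  have hnuE : (nu : E) ≠ 0 := fun h0 => hnu0 (Subtype.ext h0)
  have h1 := congrArg (fun p => p.comp (C (th : E) + C ((nu : E) * th) * X)) h
  simp only [add_comp, mul_comp, pow_comp, C_comp, sub_comp, X_comp] at h1
  have hy : C (((th : E) ^ 2 * nu)⁻¹) * ((C (th : E) + C ((nu : E) * th) * X) ^ 2 -
      C ((th : E) ^ 2)) = 2 * X + C (nu : E) * X ^ 2 := by
    have h3 : (C (th : E) + C ((nu : E) * th) * X) ^ 2 - C ((th : E) ^ 2) =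
        C ((th : E) ^ 2 * nu) * (2 * X + C (nu : E) * X ^ 2) := by
      simp only [C_mul, C_pow]; ring
    rw [h3, ← mul_assoc, ← C_mul, inv_mul_cancel₀ (mul_ne_zero (pow_ne_zero 2 hthE) hnuE), C_1,
      one_mul]
  rw [hy] at h1
  let z : O[X] := C th + C (nu * th) * X
  let y : O[X] := 2 * X + C nu * X ^ 2
  let P : O[X] := C α * y ^ 3 + A2.comp z * y ^ 2 + A4.comp z * y + A6.comp z
  have hz : z.map O.subtype = C (th : E) + C ((nu : E) * th) * X := by
    simp only [z, Polynomial.map_add, Polynomial.map_mul, map_C, map_X]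
    rfl
  have hy' : y.map O.subtype = 2 * X + C (nu : E) * X ^ 2 := by
    simp only [y, Polynomial.map_add, Polynomial.map_mul, Polynomial.map_pow, map_C, map_X,
      Polynomial.map_ofNat]
    rfl
  have hP : P.map O.subtype = (r.comp (C (th : E) + C ((nu : E) * th) * X)) ^ 2 := by
    rw [← h1]
    simp only [P, Polynomial.map_add, Polynomial.map_mul, Polynomial.map_pow, Polynomial.map_comp,
      hz, hy', map_C]
    rfl
  obtain ⟨ρ, hρ⟩ := sq_lifts O _ P hP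
  have hP2 : P = ρ ^ 2 := by
    apply Polynomial.map_injective O.subtype O.subtype_injective
    rw [hP, Polynomial.map_pow, hρ]
  let π : O →+* IsLocalRing.ResidueField O := IsLocalRing.residue O
  have hπnu : π nu = 0 := by
    rw [IsLocalRing.residue_eq_zero_iff, IsLocalRing.mem_maximalIdeal, mem_nonunits_iff]
    exact hnu
  have h3 := congrArg (fun p => Polynomial.map π p) hP2
  simp only [P, Polynomial.map_add, Polynomial.map_mul, Polynomial.map_pow, Polynomial.map_comp,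
    map_C, z, y, map_X, map_mul, hπnu, zero_mul, C_0, add_zero, Polynomial.map_ofNat] at h3
  simp only [comp_C] at h3
  have h4 : (C (8 * π α) * X ^ 3 + C (4 * eval (π th) (A2.map π)) * X ^ 2 +
      C (2 * eval (π th) (A4.map π)) * X + C (eval (π th) (A6.map π))) = (ρ.map π) ^ 2 := by
    rw [← h3]
    simp only [C_mul, map_ofNat]
    ring
  have h5 : (8 * π α) ≠ 0 := by
    have h6 : π 2 ≠ 0 := (IsLocalRing.residue_ne_zero_iff_isUnit (2 : O)).2 h2
    have h7 : π α ≠ 0 := (IsLocalRing.residue_ne_zero_iff_isUnit α).2 hα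
    have h8 : 8 * π α = (π 2) ^ 3 * π α := by
      rw [map_ofNat]; ring
    rw [h8]
    exact mul_ne_zero (pow_ne_zero 3 h6) h7
  have h6 := congrArg natDegree h4
  rw [natDegree_cubic h5, natDegree_pow] at h6
  omega

end Core

end Pool.Agent.Helper71.CQ
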