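import Pool.Agent.Helper71.CQ.Core3
import Pool.Agent.Helper71.CQ.Bitangent

/-!
# Specialisation of tritangent sections, and the deformation
-/

set_option autoImplicit false

namespace Pool.Agent.Helper71.CQ

open Polynomial

section Core

variable {E : Type} [Field E] [IsAlgClosed E]

theorem exists_sqrt (O : ValuationSubring E) (a : O) : ∃ m : O, m ^ 2 = a := by
  obtain ⟨m, hm⟩ := IsAlgClosed.exists_pow_nat_eq (a : E) (n := 2) two_pos
  exact ⟨⟨m, mem_of_sq O (by rw [hm]; exact a.2)⟩, Subtype.ext hm⟩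

/-- the local analysis -/
theorem core (O : ValuationSubring E) (h2 : IsUnit (2 : O)) (α : O) (hα : IsUnit α)
    (A2 A4 A6 : O[X]) (d2 : A2.natDegree ≤ 2) (d4 : A4.natDegree ≤ 4) (d6 : A6.natDegree ≤ 6)
    (b c lam xc : O) (hlam0 : lam ≠ 0) (hlam : ¬ IsUnit lam) (r : E[X]) (hr : r.natDegree ≤ 3)
    (hxc : 2 * xc = - b)
    (h : C (α : E) * (C ((lam : E)⁻¹) * (X ^ 2 + C (b : E) * X + C (c : E))) ^ 3 +
      A2.map O.subtype * (C ((lam : E)⁻¹) * (X ^ 2 + C (b : E) * X + C (c : E))) ^ 2 +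
      A4.map O.subtype * (C ((lam : E)⁻¹) * (X ^ 2 + C (b : E) * X + C (c : E))) +
      A6.map O.subtype = r ^ 2) :
    ∃ y : IsLocalRing.ResidueField O,
      IsLocalRing.residue O α * y ^ 3 + IsLocalRing.residue O (A2.eval xc) * y ^ 2 +
        IsLocalRing.residue O (A4.eval xc) * y + IsLocalRing.residue O (A6.eval xc) = 0 ∧
      3 * IsLocalRing.residue O α * y ^ 2 + 2 * IsLocalRing.residue O (A2.eval xc) * y +
        IsLocalRing.residue O (A4.eval xc) = 0 ∧
      IsLocalRing.residue O (A2.derivative.eval xc) * y ^ 2 +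
        IsLocalRing.residue O (A4.derivative.eval xc) * y +
        IsLocalRing.residue O (A6.derivative.eval xc) = 0 := by
  have h1 := congrArg (fun p => p.comp (X + C (xc : E))) h
  simp only [add_comp, mul_comp, pow_comp, C_comp, X_comp] at h1
  obtain ⟨Δ, hΔ⟩ : ∃ Δ : O, Δ = xc ^ 2 - c := ⟨_, rfl⟩
  have hy : (X + C (xc : E)) ^ 2 + C (b : E) * (X + C (xc : E)) + C (c : E) =
      X ^ 2 - C (Δ : E) := by
    have hb : (b : E) = - (2 * xc) := by
      have h3 : b = - (2 * xc) := by rw [hxc, neg_neg]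
      rw [h3]
      rfl
    have hΔ' : (Δ : E) = (xc : E) ^ 2 - c := by rw [hΔ]; rfl
    rw [hb, hΔ']
    simp only [C_neg, C_mul, C_sub, C_pow, map_ofNat]
    ring
  rw [hy] at h1
  have htay : ∀ A : O[X], (A.map O.subtype).comp (X + C (xc : E)) =
      (taylor xc A).map O.subtype := by
    intro A
    rw [taylor_apply, Polynomial.map_comp, Polynomial.map_add, map_X, map_C]
    rfl
  rw [htay, htay, htay] at h1
  have hr' : (r.comp (X + C (xc : E))).natDegree ≤ 3 := by
    refine natDegree_comp_le.trans ?_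
    rw [natDegree_X_add_C, mul_one]
    exact hr
  have e2 : (taylor xc A2).natDegree ≤ 2 := by rwa [natDegree_taylor]
  have e4 : (taylor xc A4).natDegree ≤ 4 := by rwa [natDegree_taylor]
  have e6 : (taylor xc A6).natDegree ≤ 6 := by rwa [natDegree_taylor]
  by_cases hdvd : lam ∣ Δ
  · obtain ⟨k, hk⟩ := hdvd
    obtain ⟨mu, hmu⟩ := exists_sqrt O lam
    have hmu0 : mu ≠ 0 := by
      rintro rfl
      apply hlam0
      rw [← hmu]; ring
    have hmu1 : ¬ IsUnit mu := by
      intro h3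
      apply hlam
      rw [← hmu]
      exact h3.pow 2
    have hmuE : (lam : E) = (mu : E) ^ 2 := by rw [← hmu]; rfl
    have hkE : (Δ : E) = (mu : E) ^ 2 * k := by rw [hk, ← hmu]; rfl
    rw [hmuE, hkE] at h1
    obtain ⟨y, y1, y2, y3⟩ := caseA O h2 α hα _ _ _ e2 e4 e6 mu k hmu0 hmu1 _ hr' h1
    simp only [taylor_coeff_zero, taylor_coeff_one] at y1 y2 y3
    exact ⟨y, y1, y2, y3⟩
  · exfalso
    have hdvd' : Δ ∣ lam := (ValuationRing.dvd_total lam Δ).resolve_left hdvd
    obtain ⟨nu, hnu⟩ := hdvd'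
    have hnu1 : ¬ IsUnit nu := by
      intro h3
      apply hdvd
      obtain ⟨w, hw⟩ := h3.exists_right_inv
      exact ⟨w, by rw [hnu, mul_assoc, hw, mul_one]⟩
    have hnu0 : nu ≠ 0 := by
      rintro rfl
      apply hlam0
      rw [hnu, mul_zero]
    obtain ⟨th, hth⟩ := exists_sqrt O Δ
    have hth0 : th ≠ 0 := by
      rintro rfl
      apply hlam0
      rw [hnu, ← hth]; ring
    have hthE : (Δ : E) = (th : E) ^ 2 := by rw [← hth]; rfl
    have hlE : (lam : E) = (th : E) ^ 2 * nu := by rw [hnu, ← hth]; rfl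
    rw [hlE, hthE] at h1
    exact caseB O h2 α hα _ _ _ th nu hth0 hnu0 hnu1 _ h1

end Core

section Deform

/-- the deformation of the tritangent section `y = 0` of `1 + x⁴ y` -/
theorem exists_tri {K : Type} [Field K] (h2 : (2 : K) ≠ 0) (al : PowerSeries K)
    (a2 a4 a6 : (PowerSeries K)[X]) (d2 : a2.natDegree ≤ 2) (d4 : a4.natDegree ≤ 4)
    (d6 : a6.natDegree ≤ 6) :
    ∃ q r : (PowerSeries K)[X], q.natDegree ≤ 2 ∧ r.natDegree ≤ 3 ∧
      1 + X ^ 4 * q + C ((PowerSeries.X : PowerSeries K) ^ 2) *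
        (C al * q ^ 3 + a2 * q ^ 2 + a4 * q + a6) = r ^ 2 := by
  classical
  let T : PowerSeries K := PowerSeries.X ^ 2
  let c : PowerSeries K := PowerSeries.C (1 / 2)
  have hc : 2 * c = 1 := by
    have h3 : (2 : PowerSeries K) = PowerSeries.C (2 : K) :=
      (map_ofNat (PowerSeries.C (R := K)) 2).symm
    rw [h3, ← map_mul, mul_one_div_cancel h2, map_one]
  let Y : (Fin 7 → PowerSeries K) → (PowerSeries K)[X] := fun z =>
    C (z 0) + C (z 1) * X + C (z 2) * X ^ 2
  let Q : (Fin 7 → PowerSeries K) → (PowerSeries K)[X] := fun z =>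
    C (z 3) + C (z 4) * X + C (z 5) * X ^ 2 + C (z 6) * X ^ 3
  let D : (PowerSeries K)[X] → (PowerSeries K)[X] := fun y =>
    C al * y ^ 3 + a2 * y ^ 2 + a4 * y + a6
  let P : (Fin 7 → PowerSeries K) → (PowerSeries K)[X] := fun z => D (C T * Y z)
  let Φ : (Fin 7 → PowerSeries K) → Fin 7 → PowerSeries K := fun z =>
    ![- (P z).coeff 4 + T * (Q z ^ 2).coeff 4, - (P z).coeff 5 + T * (Q z ^ 2).coeff 5,
      - (P z).coeff 6 + T * (Q z ^ 2).coeff 6,
      c * ((P z).coeff 0 - T * (Q z ^ 2).coeff 0), c * ((P z).coeff 1 - T * (Q z ^ 2).coeff 1),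
      c * ((P z).coeff 2 - T * (Q z ^ 2).coeff 2), c * ((P z).coeff 3 - T * (Q z ^ 2).coeff 3)]
  have hTd : ∀ (n : ℕ) (x : PowerSeries K), (PowerSeries.X : PowerSeries K) ^ n ∣ x →
      (PowerSeries.X : PowerSeries K) ^ (n + 1) ∣ T * x := by
    intro n x hx
    rw [pow_succ']
    exact mul_dvd_mul (dvd_pow_self _ two_ne_zero) hx
  have hΦ : ∀ (n : ℕ) (z z' : Fin 7 → PowerSeries K),
      (∀ i, (PowerSeries.X : PowerSeries K) ^ n ∣ z i - z' i) →
      ∀ i, (PowerSeries.X : PowerSeries K) ^ (n + 1) ∣ Φ z i - Φ z' i := by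
    intro n z z' h i
    have hCd : ∀ i, C ((PowerSeries.X : PowerSeries K) ^ n) ∣
        (C (z i) - C (z' i) : (PowerSeries K)[X]) := by
      intro i
      rw [← C_sub]
      exact map_dvd C (h i)
    have hY : C ((PowerSeries.X : PowerSeries K) ^ n) ∣ Y z - Y z' := by
      have h5 : Y z - Y z' = (C (z 0) - C (z' 0)) + (C (z 1) - C (z' 1)) * X +
          (C (z 2) - C (z' 2)) * X ^ 2 := by
        simp only [Y]; ring
      rw [h5]
      exact dvd_add (dvd_add (hCd 0) (Dvd.dvd.mul_right (hCd 1) _)) (Dvd.dvd.mul_right (hCd 2) _)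
    have hQ : C ((PowerSeries.X : PowerSeries K) ^ n) ∣ Q z - Q z' := by
      have h5 : Q z - Q z' = (C (z 3) - C (z' 3)) + (C (z 4) - C (z' 4)) * X +
          (C (z 5) - C (z' 5)) * X ^ 2 + (C (z 6) - C (z' 6)) * X ^ 3 := by
        simp only [Q]; ring
      rw [h5]
      exact dvd_add (dvd_add (dvd_add (hCd 3) (Dvd.dvd.mul_right (hCd 4) _))
        (Dvd.dvd.mul_right (hCd 5) _)) (Dvd.dvd.mul_right (hCd 6) _)
    have hQ2 : ∀ j, (PowerSeries.X : PowerSeries K) ^ n ∣
        (Q z ^ 2).coeff j - (Q z' ^ 2).coeff j := by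
      intro j
      have h5 : C ((PowerSeries.X : PowerSeries K) ^ n) ∣ Q z ^ 2 - Q z' ^ 2 := by
        rw [sq_sub_sq]
        exact Dvd.dvd.mul_left hQ _
      rw [← coeff_sub]
      exact (C_dvd_iff_dvd_coeff _ _).1 h5 j
    have hP : ∀ j, (PowerSeries.X : PowerSeries K) ^ (n + 1) ∣
        (P z).coeff j - (P z').coeff j := by
      intro j
      have h6 : C ((PowerSeries.X : PowerSeries K) ^ (n + 1)) ∣ C T * Y z - C T * Y z' := by
        rw [← mul_sub, pow_succ', C_mul]
        refine mul_dvd_mul ?_ hY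
        exact map_dvd C (dvd_pow_self _ two_ne_zero)
      have h5 : C ((PowerSeries.X : PowerSeries K) ^ (n + 1)) ∣ P z - P z' := by
        have h7 : P z - P z' = (C T * Y z - C T * Y z') * (C al * ((C T * Y z) ^ 2 +
            (C T * Y z) * (C T * Y z') + (C T * Y z') ^ 2) + a2 * (C T * Y z + C T * Y z') +
              a4) := by
          simp only [P, D]; ring
        rw [h7]
        exact Dvd.dvd.mul_right h6 _
      rw [← coeff_sub]
      exact (C_dvd_iff_dvd_coeff _ _).1 h5 j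
    have hA : ∀ j, (PowerSeries.X : PowerSeries K) ^ (n + 1) ∣
        (- (P z).coeff j + T * (Q z ^ 2).coeff j) - (- (P z').coeff j + T * (Q z' ^ 2).coeff j) := by
      intro j
      have h5 : (- (P z).coeff j + T * (Q z ^ 2).coeff j) -
          (- (P z').coeff j + T * (Q z' ^ 2).coeff j) = - ((P z).coeff j - (P z').coeff j) +
          T * ((Q z ^ 2).coeff j - (Q z' ^ 2).coeff j) := by ring
      rw [h5]
      exact dvd_add ((dvd_neg).2 (hP j)) (hTd n _ (hQ2 j))
    have hB : ∀ j, (PowerSeries.X : PowerSeries K) ^ (n + 1) ∣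
        c * ((P z).coeff j - T * (Q z ^ 2).coeff j) -
          c * ((P z').coeff j - T * (Q z' ^ 2).coeff j) := by
      intro j
      have h5 : c * ((P z).coeff j - T * (Q z ^ 2).coeff j) -
          c * ((P z').coeff j - T * (Q z' ^ 2).coeff j) = c * (((P z).coeff j - (P z').coeff j) -
          T * ((Q z ^ 2).coeff j - (Q z' ^ 2).coeff j)) := by ring
      rw [h5]
      exact Dvd.dvd.mul_left (dvd_sub (hP j) (hTd n _ (hQ2 j))) _
    fin_cases i
    · exact hA 4
    · exact hA 5
    · exact hA 6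
    · exact hB 0
    · exact hB 1
    · exact hB 2
    · exact hB 3
  obtain ⟨z, hz⟩ := exists_fixed Φ hΦ
  have z0 : z 0 = - (P z).coeff 4 + T * (Q z ^ 2).coeff 4 := hz 0
  have z1 : z 1 = - (P z).coeff 5 + T * (Q z ^ 2).coeff 5 := hz 1
  have z2 : z 2 = - (P z).coeff 6 + T * (Q z ^ 2).coeff 6 := hz 2
  have z3 : z 3 = c * ((P z).coeff 0 - T * (Q z ^ 2).coeff 0) := hz 3
  have z4 : z 4 = c * ((P z).coeff 1 - T * (Q z ^ 2).coeff 1) := hz 4
  have z5 : z 5 = c * ((P z).coeff 2 - T * (Q z ^ 2).coeff 2) := hz 5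
  have z6 : z 6 = c * ((P z).coeff 3 - T * (Q z ^ 2).coeff 3) := hz 6
  have dY : (Y z).natDegree ≤ 2 := by simp only [Y]; compute_degree
  have dQ : (Q z).natDegree ≤ 3 := by simp only [Q]; compute_degree
  have dCY : (C T * Y z).natDegree ≤ 2 := (natDegree_C_mul_le _ _).trans dY
  have dP : (P z).natDegree ≤ 6 := by
    simp only [P, D]
    refine natDegree_add_le_of_degree_le (natDegree_add_le_of_degree_le
      (natDegree_add_le_of_degree_le ?_ ?_) ?_) d6
    · refine (natDegree_C_mul_le _ _).trans ?_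
      exact natDegree_pow_le_of_le 3 dCY
    · exact natDegree_mul_le_of_le d2 (natDegree_pow_le_of_le 2 dCY)
    · exact natDegree_mul_le_of_le d4 dCY
  have dQ2 : (Q z ^ 2).natDegree ≤ 6 := natDegree_pow_le_of_le 2 dQ
  have key : X ^ 4 * Y z + P z = 2 * Q z + C T * Q z ^ 2 := by
    refine Polynomial.ext fun n => ?_
    have hX4 : ∀ n, (X ^ 4 * Y z).coeff n = if 4 ≤ n then (Y z).coeff (n - 4) else 0 := by
      intro n
      rw [coeff_X_pow_mul']
    have hYc : ∀ n, (Y z).coeff n = if n = 0 then z 0 else if n = 1 then z 1 else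
        if n = 2 then z 2 else 0 := by
      intro n
      rcases n with _ | _ | _ | n
      · simp [Y]
      · simp [Y]
      · simp [Y]
      · rw [coeff_eq_zero_of_natDegree_lt (by omega)]
        simp
    have hQc : ∀ n, (Q z).coeff n = if n = 0 then z 3 else if n = 1 then z 4 else
        if n = 2 then z 5 else if n = 3 then z 6 else 0 := by
      intro n
      rcases n with _ | _ | _ | _ | n
      · simp [Q]
      · simp [Q]
      · simp [Q]
      · simp [Q]
      · rw [coeff_eq_zero_of_natDegree_lt (by omega)]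
        simp
    have h22 : (2 : (PowerSeries K)[X]) = C 2 := (map_ofNat C 2).symm
    rw [coeff_add (X ^ 4 * Y z) (P z) n, coeff_add (2 * Q z) (C T * Q z ^ 2) n, h22, coeff_C_mul,
      coeff_C_mul, hX4, hYc, hQc]
    rcases n with _ | _ | _ | _ | _ | _ | _ | n
    · simp
      linear_combination (- 2) * z3 - ((P z).coeff 0 - T * (Q z ^ 2).coeff 0) * hc
    · simp
      linear_combination (- 2) * z4 - ((P z).coeff 1 - T * (Q z ^ 2).coeff 1) * hc
    · simp
      linear_combination (- 2) * z5 - ((P z).coeff 2 - T * (Q z ^ 2).coeff 2) * hc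
    · simp
      linear_combination (- 2) * z6 - ((P z).coeff 3 - T * (Q z ^ 2).coeff 3) * hc
    · simp
      linear_combination z0
    · simp
      linear_combination z1
    · simp
      linear_combination z2
    · rw [coeff_eq_zero_of_natDegree_lt (show (P z).natDegree < n + 1 + 1 + 1 + 1 + 1 + 1 + 1 by
        omega), coeff_eq_zero_of_natDegree_lt
        (show (Q z ^ 2).natDegree < n + 1 + 1 + 1 + 1 + 1 + 1 + 1 by omega)]
      simp
  refine ⟨C T * Y z, 1 + C T * Q z, dCY, ?_, ?_⟩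
  · refine natDegree_add_le_of_degree_le ?_ ((natDegree_C_mul_le _ _).trans dQ)
    rw [natDegree_one]
    exact Nat.zero_le _
  · change 1 + X ^ 4 * (C T * Y z) + C T * P z = (1 + C T * Q z) ^ 2
    linear_combination C T * key

end Deform

end Pool.Agent.Helper71.CQ
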